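import Mathlib

set_option autoImplicit false
open Finset

namespace Pool.Agent.Helper543.Erg

/-- A stage admits moves changing the difference vector by `a` on a proportion `δ`. -/
def Moves (k : ℕ) (a : Fin k → ℤ) (δ : ℝ) (r : ℕ) (e : Fin (r + 1) → ℕ) : Prop :=
  ∃ (P : Finset (Fin k → Fin (r + 1))) (φ : (Fin k → Fin (r + 1)) → (Fin k → Fin (r + 1))),
    Set.InjOn φ P ∧ δ * ((r : ℝ) + 1) ^ k ≤ P.card ∧
    ∀ p ∈ P, ∃ d : ℤ, ∀ i, (e (φ p i) : ℤ) = e (p i) + a i + d

/-- Most pairs have sums that are either equal or far apart. -/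
def Sums (ε : ℝ) (L : ℕ) (r : ℕ) (e : Fin (r + 1) → ℕ) : Prop :=
  ∃ G : Finset (Fin (r + 1) × Fin (r + 1)),
    (1 - ε) * ((r : ℝ) + 1) ^ 2 ≤ G.card ∧
    (∀ x ∈ G, x.1 ≠ Fin.last r ∧ x.2 ≠ Fin.last r) ∧
    ∀ x ∈ G, ∀ y ∈ G, e x.1 + e x.2 = e y.1 + e y.2 ∨
      (L : ℤ) < |((e x.1 : ℤ) + e x.2) - (e y.1 + e y.2)|

lemma exists_generic {ι : Type*} [Fintype ι] (S : Finset (ι → ℤ)) (hS : ∀ w ∈ S, w ≠ 0)
    (L : ℕ) : ∃ θ : ι → ℤ, ∀ w ∈ S, (L : ℤ) < |∑ i, θ i * w i| := by
  classical
  let p : (ι → ℤ) → MvPolynomial ι ℤ := fun w => ∑ i, MvPolynomial.C (w i) * MvPolynomial.X i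
  have hev : ∀ w θ, MvPolynomial.eval θ (p w) = ∑ i, θ i * w i := by
    intro w θ
    simp [p, mul_comm]
  have hp : ∀ w ∈ S, p w ≠ 0 := by
    intro w hw h0
    apply hS w hw
    funext i
    have := hev w (Pi.single i 1)
    rw [h0] at this
    simpa [Pi.single_apply] using this.symm
  have hprod : ∏ w ∈ S, p w ≠ 0 := Finset.prod_ne_zero_iff.mpr hp
  have : ∃ θ : ι → ℤ, MvPolynomial.eval θ (∏ w ∈ S, p w) ≠ 0 := by
    by_contra hcon
    push Not at hcon
    apply hprod
    apply MvPolynomial.funext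
    intro x
    rw [hcon x, map_zero]
  obtain ⟨θ, hθ⟩ := this
  rw [map_prod, Finset.prod_ne_zero_iff] at hθ
  refine ⟨fun i => (L + 1) * θ i, fun w hw => ?_⟩
  have h1 := hθ w hw
  rw [hev] at h1
  have h2 : ∑ i, ((L : ℤ) + 1) * θ i * w i = (L + 1) * ∑ i, θ i * w i := by
    rw [Finset.mul_sum]
    exact Finset.sum_congr rfl fun i _ => by ring
  rw [h2, abs_mul]
  have h3 : 1 ≤ |∑ i, θ i * w i| := Int.one_le_abs h1
  have h4 : |((L : ℤ) + 1)| = L + 1 := abs_of_nonneg (by positivity)
  rw [h4]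
  nlinarith

/-- Sorting a finite family of integers. -/
lemma exists_sort {E : Type*} [Fintype E] (r : ℕ) (hr : Fintype.card E = r + 1) (v : E → ℤ)
    (L : ℕ) (hv : ∀ x y, x ≠ y → (L : ℤ) < |v x - v y|) :
    ∃ (e : Fin (r + 1) → ℕ) (σ : Fin (r + 1) ≃ E) (c : ℤ), e 0 = 0 ∧
      (∀ i : Fin r, e i.castSucc + L < e i.succ) ∧ ∀ i, (e i : ℤ) = v (σ i) - c := by
  classical
  have hinj : Function.Injective v := by
    intro x y hxy
    by_contra hne
    have := hv x y hne
    rw [hxy, sub_self, abs_zero] at this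
    have : (0 : ℤ) ≤ L := by positivity
    omega
  let _ : LinearOrder E := LinearOrder.lift' v hinj
  let σ := monoEquivOfFin E hr
  have hmono : ∀ i j, i ≤ j → v (σ i) ≤ v (σ j) := by
    intro i j hij
    exact σ.monotone hij
  have hlt : ∀ i j, i < j → v (σ i) + L < v (σ j) := by
    intro i j hij
    have h1 := hmono i j hij.le
    have h2 := hv (σ j) (σ i) (by
      intro h
      exact hij.ne' (σ.injective h))
    rw [abs_of_nonneg (by linarith)] at h2
    linarith
  refine ⟨fun i => (v (σ i) - v (σ 0)).toNat, σ.toEquiv, v (σ 0), by simp, ?_, ?_⟩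
  · intro i
    have h0 := hmono 0 i.castSucc (Fin.zero_le _)
    have h1 := hlt i.castSucc i.succ (Fin.castSucc_lt_succ)
    have h2 : 0 ≤ (L : ℤ) := by positivity
    dsimp only
    omega
  · intro i
    have h0 := hmono 0 i (Fin.zero_le _)
    change ((v (σ i) - v (σ 0)).toNat : ℤ) = v (σ i) - v (σ 0)
    omega

section stage

variable (k N : ℕ)

/-- Allowed coefficients. -/
noncomputable def Bx (ib : Fin k × Bool) (m : Fin k × Fin k) : Finset ℤ :=
  if ib.2 = true then
    (if m.1 = m.2 ∨ m.1 = ib.1 then {0} else Finset.Ico (-(N : ℤ)) N)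
  else (if m.1 = m.2 ∨ m.2 = ib.1 then {0} else Finset.Ico 0 (N : ℤ))

/-- Box of coefficient vectors. -/
noncomputable def Box (ib : Fin k × Bool) : Finset (Fin k × Fin k → ℤ) := Fintype.piFinset (Bx k N ib)

/-- The digit set of one stage. -/
abbrev EE := Σ ib : Fin k × Bool, {β // β ∈ Box k N ib}

lemma count1 (i : Fin k) :
    (Finset.univ.filter fun m : Fin k × Fin k => ¬ (m.1 = m.2 ∨ m.2 = i)).card = (k - 1) ^ 2 := by
  classical
  rw [Finset.card_filter, Fintype.sum_prod_type_right]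
  have : ∀ l : Fin k, (∑ j : Fin k, if ¬ (j = l ∨ l = i) then 1 else 0) =
      if l = i then 0 else (k - 1) := by
    intro l
    by_cases hl : l = i
    · simp [hl]
    · simp only [hl, or_false, if_false]
      rw [← Finset.card_filter]
      have : (Finset.univ.filter fun j : Fin k => ¬ j = l) = Finset.univ.erase l := by
        ext j; simp
      rw [this, Finset.card_erase_of_mem (Finset.mem_univ _)]
      simp
  simp only [this]
  rw [Finset.sum_ite]
  simp only [Finset.sum_const_zero, zero_add, Finset.sum_const, smul_eq_mul]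
  have : (Finset.univ.filter fun j : Fin k => ¬ j = i) = Finset.univ.erase i := by
    ext j; simp
  rw [this, Finset.card_erase_of_mem (Finset.mem_univ _)]
  simp [sq]

lemma count2 (i : Fin k) :
    (Finset.univ.filter fun m : Fin k × Fin k => ¬ (m.1 = m.2 ∨ m.1 = i)).card = (k - 1) ^ 2 := by
  classical
  rw [← count1 k i]
  refine Finset.card_bij (fun m _ => m.swap) ?_ ?_ ?_
  · intro m hm
    simp only [Finset.mem_filter, Finset.mem_univ, true_and, not_or, Prod.fst_swap,
      Prod.snd_swap] at hm ⊢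
    exact ⟨fun h => hm.1 h.symm, hm.2⟩
  · intro m _ m' _ h
    exact Prod.swap_injective h
  · intro m hm
    refine ⟨m.swap, ?_, Prod.swap_swap m⟩
    simp only [Finset.mem_filter, Finset.mem_univ, true_and, not_or, Prod.fst_swap,
      Prod.snd_swap] at hm ⊢
    exact ⟨fun h => hm.1 h.symm, hm.2⟩

lemma card_Box_false (i : Fin k) : (Box k N (i, false)).card = N ^ ((k - 1) ^ 2) := by
  classical
  rw [Box, Fintype.card_piFinset]
  have : ∀ m : Fin k × Fin k, (Bx k N (i, false) m).card =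
      if ¬ (m.1 = m.2 ∨ m.2 = i) then N else 1 := by
    intro m
    unfold Bx
    by_cases h : m.1 = m.2 ∨ m.2 = i
    · simp [h]
    · simp [h]
  simp only [this]
  rw [Finset.prod_ite, Finset.prod_const, Finset.prod_const_one, mul_one, count1]

lemma card_Box_true (i : Fin k) : (Box k N (i, true)).card = (2 * N) ^ ((k - 1) ^ 2) := by
  classical
  rw [Box, Fintype.card_piFinset]
  have : ∀ m : Fin k × Fin k, (Bx k N (i, true) m).card =
      if ¬ (m.1 = m.2 ∨ m.1 = i) then 2 * N else 1 := by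
    intro m
    unfold Bx
    by_cases h : m.1 = m.2 ∨ m.1 = i
    · simp [h]
    · simp [h]
      omega
  simp only [this]
  rw [Finset.prod_ite, Finset.prod_const, Finset.prod_const_one, mul_one, count2]

lemma card_EE : Fintype.card (EE k N) = k * (N ^ ((k - 1) ^ 2) * (1 + 2 ^ ((k - 1) ^ 2))) := by
  classical
  rw [Fintype.card_sigma, Fintype.sum_prod_type]
  simp only [Fintype.card_coe, Fintype.sum_bool, card_Box_false, card_Box_true]
  rw [Finset.sum_const, Finset.card_univ, Fintype.card_fin, smul_eq_mul, mul_pow]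
  ring

/-- Lattice vector of a digit. -/
def ww (x : EE k N) : Fin k ⊕ (Unit ⊕ (Fin k × Fin k)) → ℤ :=
  Sum.elim (Pi.single x.1.1 1) (Sum.elim (fun _ => if x.1.2 = true then 1 else 0) x.2.1)

/-- Small part of a digit. -/
def tt (a : Fin k → ℤ) (x : EE k N) : ℤ := if x.1.2 = true then a x.1.1 else 0

variable {k N}

lemma ww_inj {x y : EE k N} (h : ww k N x = ww k N y) : x = y := by
  obtain ⟨⟨i, b⟩, β, hβ⟩ := x
  obtain ⟨⟨j, c⟩, γ, hγ⟩ := y
  have h1 : i = j := by
    have := congrFun h (Sum.inl i)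
    simp only [ww, Sum.elim_inl, Pi.single_eq_same] at this
    by_contra hne
    rw [Pi.single_eq_of_ne hne] at this
    exact one_ne_zero this
  have h2 : b = c := by
    have := congrFun h (Sum.inr (Sum.inl ()))
    simp only [ww, Sum.elim_inr, Sum.elim_inl] at this
    cases b <;> cases c <;> simp_all
  have h3 : β = γ := by
    funext m
    exact congrFun h (Sum.inr (Sum.inr m))
  subst h1 h2 h3
  rfl

lemma single_pair {i j i' j' : Fin k}
    (h : ∀ m, (Pi.single i (1 : ℤ) : Fin k → ℤ) m + (Pi.single j (1 : ℤ) : Fin k → ℤ) m =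
      (Pi.single i' (1 : ℤ) : Fin k → ℤ) m + (Pi.single j' (1 : ℤ) : Fin k → ℤ) m) :
    (i = i' ∧ j = j') ∨ (i = j' ∧ j = i') := by
  have h1 := h i
  have h2 := h j
  have h3 := h i'
  have h4 := h j'
  simp only [Pi.single_apply] at h1 h2 h3 h4
  by_cases e1 : i = i'
  · subst e1
    left
    refine ⟨rfl, ?_⟩
    by_contra hne
    have hne' : ¬ j' = j := fun h => hne h.symm
    simp [hne] at h2
  · right
    have e1' : ¬ i' = i := fun h => e1 h.symm
    constructor
    · by_contra hne
      have hne' : ¬ j' = i := fun h => hne h.symm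
      simp only [e1, hne, if_true, if_false] at h1
      split_ifs at h1 <;> omega
    · by_contra hne
      have hne' : ¬ i' = j := fun h => hne h.symm
      simp only [e1', hne', if_true, if_false] at h3
      split_ifs at h3 <;> omega

/-- Bad pairs. -/
def Bad (x y : EE k N) : Prop :=
  x.1.2 = false ∧ y.1.2 = true ∧ x.1.1 ≠ y.1.1 ∧
    x.2.1 (x.1.1, y.1.1) + y.2.1 (x.1.1, y.1.1) = 0

lemma key_mixed (a : Fin k → ℤ) {x z x' z' : EE k N} (hx : x.1.2 = false) (hz : z.1.2 = true)
    (hx' : x'.1.2 = false) (hz' : z'.1.2 = true) (hb : ¬ Bad x z)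
    (h : ww k N x + ww k N z = ww k N x' + ww k N z') :
    a z.1.1 = a z'.1.1 := by
  have h1 := single_pair (i := x.1.1) (j := z.1.1) (i' := x'.1.1) (j' := z'.1.1)
    (fun m => congrFun h (Sum.inl m))
  rcases h1 with h1 | h1
  · rw [h1.2]
  · by_cases hij : x.1.1 = z.1.1
    · rw [← hij, h1.1]
    · exfalso
      apply hb
      refine ⟨hx, hz, hij, ?_⟩
      have h2 := congrFun h (Sum.inr (Sum.inr (x.1.1, z.1.1)))
      simp only [ww, Pi.add_apply, Sum.elim_inr] at h2
      rw [h2]
      have h3 : x'.2.1 (x.1.1, z.1.1) ∈ Bx k N x'.1 (x.1.1, z.1.1) :=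
        Fintype.mem_piFinset.mp x'.2.2 _
      have h4 : z'.2.1 (x.1.1, z.1.1) ∈ Bx k N z'.1 (x.1.1, z.1.1) :=
        Fintype.mem_piFinset.mp z'.2.2 _
      have h3' : Bx k N x'.1 (x.1.1, z.1.1) = {0} := by
        unfold Bx
        rw [if_neg (by rw [hx']; simp), if_pos (Or.inr h1.2)]
      have h4' : Bx k N z'.1 (x.1.1, z.1.1) = {0} := by
        unfold Bx
        rw [if_pos hz', if_pos (Or.inr h1.1)]
      rw [h3', Finset.mem_singleton] at h3
      rw [h4', Finset.mem_singleton] at h4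
      rw [h3, h4, add_zero]

lemma key_sum (a : Fin k → ℤ) {x y x' y' : EE k N} (h1 : ¬ Bad x y) (h2 : ¬ Bad y x)
    (h : ww k N x + ww k N y = ww k N x' + ww k N y') :
    tt k N a x + tt k N a y = tt k N a x' + tt k N a y' := by
  have hE := congrFun h (Sum.inr (Sum.inl ()))
  simp only [ww, Pi.add_apply, Sum.elim_inr, Sum.elim_inl] at hE
  have hS := single_pair (i := x.1.1) (j := y.1.1) (i' := x'.1.1) (j' := y'.1.1)
    (fun m => congrFun h (Sum.inl m))
  have hxy : ww k N y + ww k N x = ww k N x' + ww k N y' := by rw [add_comm, h]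
  have hxy' : ww k N x + ww k N y = ww k N y' + ww k N x' := by
    rw [h, add_comm]
  have hxy'' : ww k N y + ww k N x = ww k N y' + ww k N x' := by
    rw [add_comm, h, add_comm]
  unfold tt
  rcases hbx : x.1.2 with _ | _ <;> rcases hby : y.1.2 with _ | _ <;>
    rcases hbx' : x'.1.2 with _ | _ <;> rcases hby' : y'.1.2 with _ | _ <;>
    simp only [hbx, hby, hbx', hby', if_true, if_false, Bool.false_eq_true] at hE ⊢ <;>
    first
    | omega
    | skip
  · -- x false, y true, x' false, y' true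
    have := key_mixed a hbx hby hbx' hby' h1 h
    omega
  · have := key_mixed a hbx hby hby' hbx' h1 hxy'
    omega
  · have := key_mixed a hby hbx hbx' hby' h2 hxy
    omega
  · have := key_mixed a hby hbx hby' hbx' h2 hxy''
    omega
  · rcases hS with hS | hS
    · rw [hS.1, hS.2]
    · rw [hS.1, hS.2, add_comm]

open Classical in
lemma card_bad (N : ℕ) : (2 * N) * (Finset.univ.filter fun p : EE k N × EE k N => Bad p.1 p.2).card
    ≤ Fintype.card (EE k N) ^ 2 := by
  classical
  have h1 : (2 * N) * (Finset.univ.filter fun p : EE k N × EE k N => Bad p.1 p.2).card =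
      (Finset.Ico (-(N : ℤ)) N ×ˢ
        (Finset.univ.filter fun p : EE k N × EE k N => Bad p.1 p.2)).card := by
    rw [Finset.card_product, Int.card_Ico]
    congr 1
    omega
  have h2 : Fintype.card (EE k N) ^ 2 = (Finset.univ : Finset (EE k N × EE k N)).card := by
    rw [Finset.card_univ, Fintype.card_prod, sq]
  rw [h1, h2]
  have hmem : ∀ (s : ℤ) (x y : EE k N), s ∈ Finset.Ico (-(N : ℤ)) N → Bad x y →
      Function.update y.2.1 (x.1.1, y.1.1) s ∈ Box k N y.1 := by
    intro s x y hs hb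
    refine Fintype.mem_piFinset.mpr fun m => ?_
    by_cases hm : m = (x.1.1, y.1.1)
    · subst hm
      rw [Function.update_self]
      unfold Bx
      have hcond : ¬ (x.1.1 = y.1.1 ∨ x.1.1 = y.1.1) := by
        intro h; exact hb.2.2.1 (h.elim id id)
      rw [if_pos hb.2.1]
      dsimp only
      rw [if_neg hcond]
      exact hs
    · rw [Function.update_of_ne hm]
      exact Fintype.mem_piFinset.mp y.2.2 m
  let f : ℤ × (EE k N × EE k N) → EE k N × EE k N := fun q =>
    if h : q.1 ∈ Finset.Ico (-(N : ℤ)) N ∧ Bad q.2.1 q.2.2 then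
      (q.2.1, ⟨q.2.2.1, ⟨Function.update q.2.2.2.1 (q.2.1.1.1, q.2.2.1.1) q.1,
        hmem _ _ _ h.1 h.2⟩⟩)
    else q.2
  refine Finset.card_le_card_of_injOn f (fun _ _ => Finset.mem_coe.mpr (Finset.mem_univ _)) ?_
  rintro ⟨s, x, y⟩ hq ⟨s', x', y'⟩ hq' hf
  rw [Finset.mem_coe, Finset.mem_product, Finset.mem_filter] at hq hq'
  have hA : s ∈ Finset.Ico (-(N : ℤ)) N ∧ Bad x y := ⟨hq.1, hq.2.2⟩
  have hA' : s' ∈ Finset.Ico (-(N : ℤ)) N ∧ Bad x' y' := ⟨hq'.1, hq'.2.2⟩
  simp only [f] at hf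
  rw [dif_pos hA, dif_pos hA'] at hf
  obtain ⟨hb1, hb2, hb3, hb4⟩ := hA.2
  obtain ⟨hb1', hb2', hb3', hb4'⟩ := hA'.2
  obtain ⟨⟨i, b⟩, β, hβ⟩ := x
  obtain ⟨⟨j, c⟩, γ, hγ⟩ := y
  obtain ⟨⟨i', b'⟩, β', hβ'⟩ := x'
  obtain ⟨⟨j', c'⟩, γ', hγ'⟩ := y'
  simp only [Prod.mk.injEq, Sigma.mk.injEq] at hf
  obtain ⟨⟨⟨h3, h4⟩, h5⟩, ⟨h6, h7⟩, h8⟩ := hf
  subst h3 h4 h6 h7
  have h5' : β = β' := by
    have := eq_of_heq h5
    exact Subtype.mk.inj this
  subst h5'
  have h8' : Function.update γ (i, j) s = Function.update γ' (i, j) s' := by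
    have := eq_of_heq h8
    exact Subtype.mk.inj this
  have hs : s = s' := by
    have := congrFun h8' (i, j)
    simpa using this
  subst hs
  have hγγ : γ = γ' := by
    funext m
    by_cases hm : m = (i, j)
    · subst hm
      dsimp only at hb4 hb4'
      linarith
    · have := congrFun h8' m
      rwa [Function.update_of_ne hm, Function.update_of_ne hm] at this
  subst hγγ
  rfl

end stage

lemma mem_Bx {k N : ℕ} (x : EE k N) {ib : Fin k × Bool} (h : x.1 = ib) (m : Fin k × Fin k) :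
    x.2.1 m ∈ Bx k N ib m := by
  subst h
  exact Fintype.mem_piFinset.mp x.2.2 m

/-- The relation between a tuple and its moved tuple. -/
def Rel (k N : ℕ) (p p' : Fin k → EE k N) : Prop :=
  ∀ i, (p' i).1 = (i, true) ∧ ∀ m, (p' i).2.1 m = (p i).2.1 m - (p m.1).2.1 m

lemma exists_rel (k N : ℕ) (hN : 1 ≤ N) (p : Fin k → EE k N) (hp : ∀ i, (p i).1 = (i, false)) :
    ∃ p', Rel k N p p' := by
  have hmem : ∀ i, (fun m : Fin k × Fin k => (p i).2.1 m - (p m.1).2.1 m) ∈ Box k N (i, true) := by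
    intro i
    refine Fintype.mem_piFinset.mpr fun m => ?_
    have h1 := mem_Bx (p i) (hp i) m
    have h2 := mem_Bx (p m.1) (hp m.1) m
    unfold Bx at h1 h2 ⊢
    simp only [Bool.false_eq_true, if_false] at h1 h2
    simp only [if_true]
    by_cases hd : m.1 = m.2
    · rw [if_pos (Or.inl hd), Finset.mem_singleton] at h1 h2
      rw [if_pos (Or.inl hd), h1, h2]
      simp
    · by_cases hi : m.1 = i
      · rw [if_pos (Or.inr hi)]
        rw [hi]
        simp
      · rw [if_neg (by tauto)]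
        have h2' : ¬ (m.1 = m.2 ∨ m.2 = m.1) := by
          intro h
          exact hd (h.elim id (fun h => h.symm))
        rw [if_neg h2', Finset.mem_Ico] at h2
        by_cases hl : m.2 = i
        · rw [if_pos (Or.inr hl), Finset.mem_singleton] at h1
          rw [h1, Finset.mem_Ico]
          omega
        · rw [if_neg (by tauto), Finset.mem_Ico] at h1
          rw [Finset.mem_Ico]
          omega
  exact ⟨fun i => ⟨(i, true), ⟨_, hmem i⟩⟩, fun i => ⟨rfl, fun m => rfl⟩⟩

lemma rel_inj (k N : ℕ) (p q p' : Fin k → EE k N) (hp : ∀ i, (p i).1 = (i, false))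
    (hq : ∀ i, (q i).1 = (i, false)) (h1 : Rel k N p p') (h2 : Rel k N q p') : p = q := by
  have hzero : ∀ (p : Fin k → EE k N), (∀ i, (p i).1 = (i, false)) →
      ∀ m : Fin k × Fin k, (p m.2).2.1 m = 0 := by
    intro p hp m
    have h1 := mem_Bx (p m.2) (hp m.2) m
    unfold Bx at h1
    simp only [Bool.false_eq_true, if_false, or_true, if_true, Finset.mem_singleton] at h1
    exact h1
  have hD : ∀ m : Fin k × Fin k, (p m.1).2.1 m = (q m.1).2.1 m := by
    intro m
    have e1 := (h1 m.2).2 m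
    have e2 := (h2 m.2).2 m
    rw [hzero p hp] at e1
    rw [hzero q hq] at e2
    linarith
  funext i
  apply ww_inj
  have hpi := hp i
  have hqi := hq i
  funext s
  rcases s with s | s | m
  · simp only [ww, Sum.elim_inl, hpi, hqi]
  · simp only [ww, Sum.elim_inr, Sum.elim_inl, hpi, hqi]
  · simp only [ww, Sum.elim_inr]
    have e1 := (h1 i).2 m
    have e2 := (h2 i).2 m
    have e3 := hD m
    linarith

/-- The proportion of movable tuples. -/
noncomputable def del (k : ℕ) : ℝ := (1 / (k * (1 + 2 ^ ((k - 1) ^ 2)))) ^ k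

lemma del_pos (k : ℕ) (hk : 1 ≤ k) : 0 < del k := by
  unfold del
  have : (0 : ℝ) < k := by exact_mod_cast hk
  positivity

/-- **The combinatorial lemma.** -/
theorem comb (k : ℕ) (hk : 2 ≤ k) (a : Fin k → ℤ) (ε : ℝ) (hε : 0 < ε) (L : ℕ) :
    ∃ (r : ℕ) (e : Fin (r + 1) → ℕ), 1 ≤ r ∧ e 0 = 0 ∧
      (∀ i : Fin r, e i.castSucc + L * (r + 1) < e i.succ) ∧
      Moves k a (del k) r e ∧ Sums ε L r e := by
  classical
  obtain ⟨N, hN⟩ := exists_nat_gt (3 / ε)
  have hNpos : 0 < (N : ℝ) := lt_trans (by positivity) hN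
  have hN1 : 1 ≤ N := by
    have : 0 < N := by exact_mod_cast hNpos
    omega
  set s := (k - 1) ^ 2 with hs
  have hs1 : 1 ≤ s := by
    rw [hs]
    have : 1 ≤ k - 1 := by omega
    exact Nat.one_le_pow _ _ this
  have hcard := card_EE k N
  rw [← hs] at hcard
  have hNs : N ≤ N ^ s := by
    calc N = N ^ 1 := (pow_one N).symm
      _ ≤ N ^ s := Nat.pow_le_pow_right hN1 hs1
  have hcard2 : 2 * N ≤ Fintype.card (EE k N) := by
    rw [hcard]
    have h2 : 1 ≤ 1 + 2 ^ s := Nat.le_add_right _ _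
    calc 2 * N ≤ k * N ^ s := Nat.mul_le_mul hk hNs
      _ = k * (N ^ s * 1) := by rw [mul_one]
      _ ≤ k * (N ^ s * (1 + 2 ^ s)) := by gcongr
  obtain ⟨r, hr⟩ : ∃ r, Fintype.card (EE k N) = r + 1 := ⟨Fintype.card (EE k N) - 1, by omega⟩
  have hr1 : 1 ≤ r := by omega
  -- generic direction
  obtain ⟨A, hA⟩ : ∃ A : ℕ, ∀ i, |a i| ≤ A := by
    refine ⟨∑ i, (a i).natAbs, fun i => ?_⟩
    have : (a i).natAbs ≤ ∑ i, (a i).natAbs :=
      Finset.single_le_sum (f := fun i => (a i).natAbs) (fun _ _ => Nat.zero_le _)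
        (Finset.mem_univ i)
    rw [Int.abs_eq_natAbs]
    exact_mod_cast this
  have htt : ∀ x : EE k N, |tt k N a x| ≤ A := by
    intro x
    unfold tt
    split_ifs
    · exact hA _
    · simp
  let S : Finset (Fin k ⊕ (Unit ⊕ (Fin k × Fin k)) → ℤ) :=
    (Finset.univ.image fun q : (EE k N × EE k N) × (EE k N × EE k N) =>
      (ww k N q.1.1 + ww k N q.1.2) - (ww k N q.2.1 + ww k N q.2.2)).filter (· ≠ 0)
  obtain ⟨θ, hθ⟩ := exists_generic S (fun w hw => (Finset.mem_filter.mp hw).2)
    (L * (r + 1) + 4 * A)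
  let ψ : (Fin k ⊕ (Unit ⊕ (Fin k × Fin k)) → ℤ) → ℤ := fun w => ∑ i, θ i * w i
  have hψadd : ∀ w w', ψ (w + w') = ψ w + ψ w' := by
    intro w w'
    simp only [ψ, Pi.add_apply, mul_add, Finset.sum_add_distrib]
  have hψsub : ∀ w w', ψ (w - w') = ψ w - ψ w' := by
    intro w w'
    simp only [ψ, Pi.sub_apply, mul_sub, Finset.sum_sub_distrib]
  have hfar : ∀ x y x' y' : EE k N, ww k N x + ww k N y ≠ ww k N x' + ww k N y' →
      (L * (r + 1) + 4 * A : ℤ) < |(ψ (ww k N x) + ψ (ww k N y)) -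
        (ψ (ww k N x') + ψ (ww k N y'))| := by
    intro x y x' y' hne
    have := hθ ((ww k N x + ww k N y) - (ww k N x' + ww k N y')) (by
      rw [Finset.mem_filter]
      refine ⟨Finset.mem_image.mpr ⟨((x, y), (x', y')), Finset.mem_univ _, rfl⟩, ?_⟩
      rwa [sub_ne_zero])
    change _ < |ψ _| at this
    rw [hψsub, hψadd, hψadd] at this
    push_cast at this
    exact this
  let v : EE k N → ℤ := fun x => ψ (ww k N x) + tt k N a x
  have hAnn : (0 : ℤ) ≤ A := by positivity
  have hLnn : (0 : ℤ) ≤ L * (r + 1) := by positivity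
  have hv : ∀ x y, x ≠ y → ((L * (r + 1) : ℕ) : ℤ) < |v x - v y| := by
    intro x y hxy
    have h1 : ww k N x + ww k N x ≠ ww k N y + ww k N x := by
      intro h
      exact hxy (ww_inj (add_right_cancel h))
    have h2 := hfar x x y x h1
    have h3 := htt x
    have h4 := htt y
    have h5 : v x - v y = ((ψ (ww k N x) + ψ (ww k N x)) - (ψ (ww k N y) + ψ (ww k N x))) +
        (tt k N a x - tt k N a y) := by
      simp only [v]; ring
    rw [h5]
    rw [abs_le] at h3 h4
    push_cast
    rcases lt_abs.mp h2 with h | h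
    · exact lt_abs.mpr (Or.inl (by linarith))
    · exact lt_abs.mpr (Or.inr (by linarith))
  obtain ⟨e, σ, c, he0, hgap, hev⟩ := exists_sort r hr v (L * (r + 1)) hv
  refine ⟨r, e, hr1, he0, hgap, ?_, ?_⟩
  · -- moves
    let Sg : (Fin k → Fin (r + 1)) ≃ (Fin k → EE k N) := Equiv.arrowCongr (Equiv.refl _) σ
    have hSg : ∀ p i, Sg p i = σ (p i) := fun p i => rfl
    let PE : Finset (Fin k → EE k N) := Finset.univ.image
      (fun (g : ∀ i : Fin k, {β // β ∈ Box k N (i, false)}) =>
        fun i => (⟨(i, false), g i⟩ : EE k N))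
    have hPE : ∀ p ∈ PE, ∀ i, (p i).1 = (i, false) := by
      intro p hp i
      obtain ⟨g, -, rfl⟩ := Finset.mem_image.mp hp
      rfl
    have hPEcard : PE.card = (N ^ s) ^ k := by
      rw [Finset.card_image_of_injective, Finset.card_univ, Fintype.card_pi]
      · simp only [Fintype.card_coe, card_Box_false, Finset.prod_const, Finset.card_univ,
          Fintype.card_fin]
        rw [hs]
      · intro g g' h
        funext i
        have := congrFun h i
        simpa using this
    have hex : ∀ p : Fin k → EE k N, ∃ p', p ∈ PE → Rel k N p p' := by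
      intro p
      by_cases hp : p ∈ PE
      · obtain ⟨p', hp'⟩ := exists_rel k N hN1 p (hPE p hp)
        exact ⟨p', fun _ => hp'⟩
      · exact ⟨p, fun h => absurd h hp⟩
    choose φ hφ using hex
    refine ⟨PE.map Sg.symm.toEmbedding, fun p => Sg.symm (φ (Sg p)), ?_, ?_, ?_⟩
    · intro p hp q hq hpq
      rw [Finset.mem_coe, Finset.mem_map_equiv, Equiv.symm_symm] at hp hq
      have h1 : φ (Sg p) = φ (Sg q) := Sg.symm.injective hpq
      have h2 := rel_inj k N (Sg p) (Sg q) (φ (Sg p)) (hPE _ hp) (hPE _ hq) (hφ _ hp)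
        (by rw [h1]; exact hφ _ hq)
      exact Sg.injective h2
    · rw [Finset.card_map, hPEcard]
      have h1 : ((r : ℝ) + 1) = k * (N ^ s * (1 + 2 ^ s)) := by
        have : ((r + 1 : ℕ) : ℝ) = ((k * (N ^ s * (1 + 2 ^ s)) : ℕ) : ℝ) := by
          rw [← hr, hcard]
        push_cast at this
        exact this
      rw [h1, del, ← hs, ← mul_pow]
      push_cast
      have hk0 : (0 : ℝ) < k := by
        have : 0 < k := by omega
        exact_mod_cast this
      apply le_of_eq
      congr 1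
      field_simp
    · intro p hp
      rw [Finset.mem_map_equiv, Equiv.symm_symm] at hp
      have hR := hφ _ hp
      have hF := hPE _ hp
      refine ⟨θ (Sum.inr (Sum.inl ())) - ∑ m : Fin k × Fin k,
        θ (Sum.inr (Sum.inr m)) * (Sg p m.1).2.1 m, fun i => ?_⟩
      rw [hev, hev]
      have h1 : σ (Sg.symm (φ (Sg p)) i) = φ (Sg p) i := by
        rw [← hSg, Equiv.apply_symm_apply]
      rw [h1, ← hSg]
      have h2 : v (φ (Sg p) i) = v (Sg p i) + a i + (θ (Sum.inr (Sum.inl ())) -
          ∑ m : Fin k × Fin k, θ (Sum.inr (Sum.inr m)) * (Sg p m.1).2.1 m) := by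
        have e1 := (hR i).1
        have e2 := (hR i).2
        have e3 := hF i
        simp only [v, ψ, Fintype.sum_sum_type, ww, tt, Sum.elim_inl, Sum.elim_inr, e1, e3, e2,
          if_true, Bool.false_eq_true, if_false, mul_sub, Finset.sum_sub_distrib,
          Finset.univ_unique, Finset.sum_singleton]
        simp
        ring
      rw [h2]
      ring
  · -- sums
    let B1 : Finset (EE k N × EE k N) := Finset.univ.filter fun p => Bad p.1 p.2
    let B2 : Finset (EE k N × EE k N) := Finset.univ.filter fun p => Bad p.2 p.1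
    have hB12 : B2.card = B1.card := by
      refine Finset.card_bij (fun p _ => p.swap) ?_ ?_ ?_
      · intro p hp
        exact Finset.mem_filter.mpr ⟨Finset.mem_univ _, (Finset.mem_filter.mp hp).2⟩
      · intro p _ q _ h
        exact Prod.swap_injective h
      · intro p hp
        exact ⟨p.swap, Finset.mem_filter.mpr ⟨Finset.mem_univ _, (Finset.mem_filter.mp hp).2⟩,
          Prod.swap_swap p⟩
    have hB1 : (2 * N) * B1.card ≤ (r + 1) ^ 2 := by
      rw [← hr]
      exact card_bad N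
    let ρ : (Fin (r + 1) × Fin (r + 1)) ≃ (EE k N × EE k N) := Equiv.prodCongr σ σ
    let X1 : Finset (Fin (r + 1) × Fin (r + 1)) := B1.map ρ.symm.toEmbedding
    let X2 : Finset (Fin (r + 1) × Fin (r + 1)) := B2.map ρ.symm.toEmbedding
    let X3 : Finset (Fin (r + 1) × Fin (r + 1)) := {Fin.last r} ×ˢ Finset.univ
    let X4 : Finset (Fin (r + 1) × Fin (r + 1)) := Finset.univ ×ˢ {Fin.last r}
    refine ⟨Finset.univ \ (X1 ∪ X2 ∪ X3 ∪ X4), ?_, ?_, ?_⟩
    · have hX3 : X3.card = r + 1 := by simp [X3]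
      have hX4 : X4.card = r + 1 := by simp [X4]
      have hX1 : X1.card = B1.card := Finset.card_map _
      have hX2 : X2.card = B1.card := by rw [← hB12]; exact Finset.card_map _
      have hU : (X1 ∪ X2 ∪ X3 ∪ X4).card ≤ B1.card + B1.card + (r + 1) + (r + 1) := by
        calc _ ≤ (X1 ∪ X2 ∪ X3).card + X4.card := Finset.card_union_le _ _
          _ ≤ ((X1 ∪ X2).card + X3.card) + X4.card := by
            gcongr; exact Finset.card_union_le _ _
          _ ≤ ((X1.card + X2.card) + X3.card) + X4.card := by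
            gcongr; exact Finset.card_union_le _ _
          _ = _ := by rw [hX1, hX2, hX3, hX4]
      have hsub := Finset.le_card_sdiff (X1 ∪ X2 ∪ X3 ∪ X4) (Finset.univ : Finset
        (Fin (r + 1) × Fin (r + 1)))
      have huniv : (Finset.univ : Finset (Fin (r + 1) × Fin (r + 1))).card = (r + 1) ^ 2 := by
        rw [Finset.card_univ, Fintype.card_prod, Fintype.card_fin, sq]
      rw [huniv] at hsub
      have hsub' : (((r : ℝ) + 1) ^ 2 - (2 * B1.card + 2 * (r + 1)) : ℝ) ≤
          ((Finset.univ \ (X1 ∪ X2 ∪ X3 ∪ X4)).card : ℝ) := by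
        have h1 : (r + 1) ^ 2 ≤ (Finset.univ \ (X1 ∪ X2 ∪ X3 ∪ X4)).card +
            (X1 ∪ X2 ∪ X3 ∪ X4).card := by omega
        have h2 : (r + 1) ^ 2 ≤ (Finset.univ \ (X1 ∪ X2 ∪ X3 ∪ X4)).card +
            (B1.card + B1.card + (r + 1) + (r + 1)) := by omega
        have h3 : (((r + 1) ^ 2 : ℕ) : ℝ) ≤ (((Finset.univ \ (X1 ∪ X2 ∪ X3 ∪ X4)).card +
            (B1.card + B1.card + (r + 1) + (r + 1)) : ℕ) : ℝ) := by exact_mod_cast h2
        push_cast at h3
        linarith
      refine le_trans ?_ hsub'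
      have hB1' : (2 * N : ℝ) * B1.card ≤ ((r : ℝ) + 1) ^ 2 := by exact_mod_cast hB1
      have hRN : (2 * N : ℝ) ≤ (r : ℝ) + 1 := by
        have : 2 * N ≤ r + 1 := by omega
        exact_mod_cast this
      have hRpos : (0 : ℝ) < (r : ℝ) + 1 := by positivity
      have h3N : 3 < ε * N := by
        rw [div_lt_iff₀ hε] at hN
        linarith
      have h5 : (N : ℝ) * (2 * B1.card + 2 * (r + 1)) ≤ 2 * ((r : ℝ) + 1) ^ 2 := by
        nlinarith
      have h6 : (N : ℝ) * (2 * B1.card + 2 * (r + 1)) ≤ N * (ε * ((r : ℝ) + 1) ^ 2) := by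
        nlinarith [sq_nonneg ((r : ℝ) + 1)]
      have h7 := le_of_mul_le_mul_left h6 hNpos
      linarith
    · intro x hx
      rw [Finset.mem_sdiff] at hx
      have hx2 := hx.2
      simp only [Finset.mem_union, not_or] at hx2
      obtain ⟨⟨-, h3⟩, h4⟩ := hx2
      constructor
      · intro h
        exact h3 (Finset.mem_product.mpr ⟨Finset.mem_singleton.mpr h, Finset.mem_univ _⟩)
      · intro h
        exact h4 (Finset.mem_product.mpr ⟨Finset.mem_univ _, Finset.mem_singleton.mpr h⟩)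
    · intro x hx y hy
      rw [Finset.mem_sdiff] at hx
      have hx2 := hx.2
      simp only [Finset.mem_union, not_or] at hx2
      obtain ⟨⟨⟨h1, h2⟩, -⟩, -⟩ := hx2
      have hb1 : ¬ Bad (σ x.1) (σ x.2) := by
        intro h
        apply h1
        rw [Finset.mem_map_equiv, Equiv.symm_symm]
        exact Finset.mem_filter.mpr ⟨Finset.mem_univ _, h⟩
      have hb2 : ¬ Bad (σ x.2) (σ x.1) := by
        intro h
        apply h2
        rw [Finset.mem_map_equiv, Equiv.symm_symm]
        exact Finset.mem_filter.mpr ⟨Finset.mem_univ _, h⟩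
      by_cases hw : ww k N (σ x.1) + ww k N (σ x.2) = ww k N (σ y.1) + ww k N (σ y.2)
      · left
        have h3 := key_sum a hb1 hb2 hw
        have h4 : ψ (ww k N (σ x.1)) + ψ (ww k N (σ x.2)) =
            ψ (ww k N (σ y.1)) + ψ (ww k N (σ y.2)) := by
          rw [← hψadd, hw, hψadd]
        have h5 := hev x.1
        have h6 := hev x.2
        have h7 := hev y.1
        have h8 := hev y.2
        simp only [v] at h5 h6 h7 h8
        have : (e x.1 : ℤ) + e x.2 = e y.1 + e y.2 := by linarith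
        exact_mod_cast this
      · right
        have h3 := hfar _ _ _ _ hw
        have h5 := hev x.1
        have h6 := hev x.2
        have h7 := hev y.1
        have h8 := hev y.2
        have t1 := abs_le.mp (htt (σ x.1))
        have t2 := abs_le.mp (htt (σ x.2))
        have t3 := abs_le.mp (htt (σ y.1))
        have t4 := abs_le.mp (htt (σ y.2))
        simp only [v] at h5 h6 h7 h8
        have hL : (L : ℤ) ≤ L * (r + 1) := by
          have : (0 : ℤ) ≤ L := by positivity
          have : (0 : ℤ) ≤ r := by positivity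
          nlinarith
        rcases lt_abs.mp h3 with h | h
        · exact lt_abs.mpr (Or.inl (by linarith [t1.1, t2.1, t3.2, t4.2]))
        · exact lt_abs.mpr (Or.inr (by linarith [t1.2, t2.2, t3.1, t4.1]))

end Pool.Agent.Helper543.Erg
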