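import Pool.Agent.Helper543.Erg.Comb

set_option autoImplicit false
open Finset

namespace Pool.Agent.Helper543.Erg

/-- Moves for one coordinate are trivial. -/
lemma moves_one (a : Fin 1 → ℤ) (r : ℕ) (e : Fin (r + 1) → ℕ) : Moves 1 a 1 r e := by
  refine ⟨Finset.univ, id, Set.injOn_id _, ?_, ?_⟩
  · rw [Finset.card_univ, Fintype.card_fun, Fintype.card_fin, Fintype.card_fin]
    push_cast
    linarith
  · intro p _
    refine ⟨-a 0, fun i => ?_⟩
    have : i = 0 := Subsingleton.elim _ _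
    subst this
    simp

section

variable {k : ℕ} {r : ℕ → ℕ} {e : (n : ℕ) → Fin (r n + 1) → ℕ} {F : ℕ → (Fin k → ℤ) → ℝ}

lemma step_down (hrec : ∀ n z, F n z * (((r n : ℝ) + 1) ^ k) =
      ∑ q : Fin k → Fin (r n + 1), F (n + 1) (fun i => z i + e n (q i)))
    (a : Fin k → ℤ) (b : ℝ) (n : ℕ)
    (h : ∀ z, |F (n + 1) (fun i => z i + a i) - F (n + 1) z| ≤ b) (z : Fin k → ℤ) :
    |F n (fun i => z i + a i) - F n z| ≤ b := by
  have hR : (0 : ℝ) < ((r n : ℝ) + 1) ^ k := by positivity
  have h1 := hrec n z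
  have h2 := hrec n (fun i => z i + a i)
  have h3 : |F n (fun i => z i + a i) - F n z| * (((r n : ℝ) + 1) ^ k) ≤
      b * (((r n : ℝ) + 1) ^ k) := by
    calc |F n (fun i => z i + a i) - F n z| * (((r n : ℝ) + 1) ^ k)
        = |(F n (fun i => z i + a i) - F n z) * (((r n : ℝ) + 1) ^ k)| := by
          rw [abs_mul, abs_of_pos hR]
      _ = |∑ q : Fin k → Fin (r n + 1), (F (n + 1) (fun i => (z i + a i) + e n (q i)) -
            F (n + 1) (fun i => z i + e n (q i)))| := by
          rw [sub_mul, h1, h2, Finset.sum_sub_distrib]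
      _ ≤ ∑ q : Fin k → Fin (r n + 1), |F (n + 1) (fun i => (z i + a i) + e n (q i)) -
            F (n + 1) (fun i => z i + e n (q i))| := Finset.abs_sum_le_sum_abs _ _
      _ ≤ ∑ _q : Fin k → Fin (r n + 1), b := by
          refine Finset.sum_le_sum fun q _ => ?_
          have := h (fun i => z i + e n (q i))
          have e1 : (fun i => (z i + (e n (q i) : ℤ)) + a i) =
              (fun i => (z i + a i) + (e n (q i) : ℤ)) := by
            funext i; ring
          rw [e1] at this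
          exact this
      _ = b * (((r n : ℝ) + 1) ^ k) := by
          rw [Finset.sum_const, Finset.card_univ, Fintype.card_fun, Fintype.card_fin,
            Fintype.card_fin, nsmul_eq_mul]
          push_cast
          ring
  exact le_of_mul_le_mul_right h3 hR

lemma step_move {δ : ℝ} (h0 : ∀ n z, 0 ≤ F n z) (h1 : ∀ n z, F n z ≤ 1)
    (hdiag : ∀ n z (t : ℤ), F n (fun i => z i + t) = F n z)
    (hrec : ∀ n z, F n z * (((r n : ℝ) + 1) ^ k) =
      ∑ q : Fin k → Fin (r n + 1), F (n + 1) (fun i => z i + e n (q i)))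
    (a : Fin k → ℤ) (N : ℕ) (hm : Moves k a δ (r N) (e N)) (b : ℝ) (hb : 0 ≤ b)
    (h : ∀ z w, |F (N + 1) z - F (N + 1) w| ≤ b) (z : Fin k → ℤ) :
    |F N (fun i => z i + a i) - F N z| ≤ (1 - δ) * b := by
  classical
  obtain ⟨P, φ, hinj, hcard, hmv⟩ := hm
  have hR : (0 : ℝ) < ((r N : ℝ) + 1) ^ k := by positivity
  let f : (Fin k → Fin (r N + 1)) → ℝ := fun q => F (N + 1) (fun i => (z i + a i) + e N (q i))
  let g : (Fin k → Fin (r N + 1)) → ℝ := fun q => F (N + 1) (fun i => z i + e N (q i))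
  have hfg : ∀ p ∈ P, g (φ p) = f p := by
    intro p hp
    obtain ⟨d, hd⟩ := hmv p hp
    change F (N + 1) (fun i => z i + (e N (φ p i) : ℤ)) =
      F (N + 1) (fun i => (z i + a i) + (e N (p i) : ℤ))
    rw [← hdiag (N + 1) (fun i => (z i + a i) + (e N (p i) : ℤ)) d]
    congr 1
    funext i
    rw [hd i]
    ring
  have hsum1 : ∑ q ∈ P.image φ, g q = ∑ p ∈ P, f p := by
    rw [Finset.sum_image hinj]
    exact Finset.sum_congr rfl hfg
  have hf : ∑ q, f q = ∑ q ∈ P, f q + ∑ q ∈ Pᶜ, f q := (Finset.sum_add_sum_compl P f).symm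
  have hg : ∑ q, g q = ∑ q ∈ P.image φ, g q + ∑ q ∈ (P.image φ)ᶜ, g q :=
    (Finset.sum_add_sum_compl (P.image φ) g).symm
  have hcI : (P.image φ).card = P.card := Finset.card_image_of_injOn hinj
  have hcU : ((Fintype.card (Fin k → Fin (r N + 1)) : ℕ) : ℝ) = ((r N : ℝ) + 1) ^ k := by
    rw [Fintype.card_fun, Fintype.card_fin, Fintype.card_fin]
    push_cast
    rfl
  have hM1 : ((Pᶜ.card : ℕ) : ℝ) = ((r N : ℝ) + 1) ^ k - P.card := by
    rw [Finset.card_compl, Nat.cast_sub (Finset.card_le_univ _), hcU]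
  have hM2 : (((P.image φ)ᶜ.card : ℕ) : ℝ) = ((r N : ℝ) + 1) ^ k - P.card := by
    rw [Finset.card_compl, Nat.cast_sub (Finset.card_le_univ _), hcU, hcI]
  set s := ⨆ w, F (N + 1) w with hs
  have hbdd : BddAbove (Set.range (F (N + 1))) := ⟨1, by rintro _ ⟨w, rfl⟩; exact h1 _ _⟩
  have hle : ∀ w, F (N + 1) w ≤ s := fun w => le_ciSup hbdd w
  have hge : ∀ w, s ≤ F (N + 1) w + b := by
    intro w
    apply ciSup_le
    intro w'
    have := (abs_le.mp (h w' w)).2
    linarith
  have hup : ∀ (A B : Finset (Fin k → Fin (r N + 1))) (u v : (Fin k → Fin (r N + 1)) → ℝ),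
      (A.card : ℝ) = B.card → (∀ q, u q ≤ s) → (∀ q, s ≤ v q + b) →
      ∑ q ∈ A, u q ≤ ∑ q ∈ B, v q + B.card * b := by
    intro A B u v hAB hu hv
    calc ∑ q ∈ A, u q ≤ ∑ _q ∈ A, s := Finset.sum_le_sum fun q _ => hu q
      _ = A.card * s := by rw [Finset.sum_const, nsmul_eq_mul]
      _ = B.card * s := by rw [hAB]
      _ = ∑ _q ∈ B, s := by rw [Finset.sum_const, nsmul_eq_mul]
      _ ≤ ∑ q ∈ B, (v q + b) := Finset.sum_le_sum fun q _ => hv q
      _ = ∑ q ∈ B, v q + B.card * b := by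
          rw [Finset.sum_add_distrib, Finset.sum_const, nsmul_eq_mul]
  have hA := hup Pᶜ (P.image φ)ᶜ f g (by rw [hM1, hM2]) (fun q => hle _) (fun q => hge _)
  have hB := hup (P.image φ)ᶜ Pᶜ g f (by rw [hM1, hM2]) (fun q => hle _) (fun q => hge _)
  rw [hM2] at hA
  rw [hM1] at hB
  have e1 := hrec N z
  have e2 := hrec N (fun i => z i + a i)
  change _ = ∑ q, g q at e1
  change _ = ∑ q, f q at e2
  have hb' : (((r N : ℝ) + 1) ^ k - P.card) * b ≤ (1 - δ) * b * ((r N : ℝ) + 1) ^ k := by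
    nlinarith
  have h3 : |F N (fun i => z i + a i) - F N z| * (((r N : ℝ) + 1) ^ k) ≤
      ((1 - δ) * b) * (((r N : ℝ) + 1) ^ k) := by
    calc |F N (fun i => z i + a i) - F N z| * (((r N : ℝ) + 1) ^ k)
        = |(F N (fun i => z i + a i) - F N z) * (((r N : ℝ) + 1) ^ k)| := by
          rw [abs_mul, abs_of_pos hR]
      _ = |∑ q, f q - ∑ q, g q| := by rw [sub_mul, e1, e2]
      _ ≤ ((1 - δ) * b) * (((r N : ℝ) + 1) ^ k) := by
          rw [abs_le]
          constructor <;> linarith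
  exact le_of_mul_le_mul_right h3 hR

/-- **The abstract coupling lemma.** -/
theorem flemma (δ : ℝ) (hδ : 0 < δ)
    (hmove : ∀ (a : Fin k → ℤ) (n : ℕ), ∃ N ≥ n, Moves k a δ (r N) (e N))
    (h0 : ∀ n z, 0 ≤ F n z) (h1 : ∀ n z, F n z ≤ 1)
    (hdiag : ∀ n z (t : ℤ), F n (fun i => z i + t) = F n z)
    (hrec : ∀ n z, F n z * (((r n : ℝ) + 1) ^ k) =
      ∑ q : Fin k → Fin (r n + 1), F (n + 1) (fun i => z i + e n (q i))) :
    ∀ n z w, F n z = F n w := by
  classical
  have hδ1 : δ ≤ 1 := by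
    obtain ⟨N, -, P, φ, -, hc, -⟩ := hmove 0 0
    have h2 : (P.card : ℝ) ≤ ((r N : ℝ) + 1) ^ k := by
      have := Finset.card_le_univ P
      rw [Fintype.card_fun, Fintype.card_fin, Fintype.card_fin] at this
      exact_mod_cast this
    have hR : (0 : ℝ) < ((r N : ℝ) + 1) ^ k := by positivity
    by_contra hcon
    push Not at hcon
    nlinarith
  have hdown : ∀ (a : Fin k → ℤ) (b : ℝ) (n N : ℕ), n ≤ N →
      (∀ z, |F N (fun i => z i + a i) - F N z| ≤ b) →
      ∀ z, |F n (fun i => z i + a i) - F n z| ≤ b := by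
    intro a b n N hnN
    induction N, hnN using Nat.le_induction with
    | base => exact fun h => h
    | succ N _ ih => exact fun h => ih (step_down hrec a b N h)
  have hclaim : ∀ (j : ℕ) (n : ℕ) (z a : Fin k → ℤ),
      |F n (fun i => z i + a i) - F n z| ≤ (1 - δ) ^ j := by
    intro j
    induction j with
    | zero =>
      intro n z a
      rw [pow_zero, abs_le]
      have := h0 n z
      have := h1 n z
      have := h0 n (fun i => z i + a i)
      have := h1 n (fun i => z i + a i)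
      constructor <;> linarith
    | succ j ih =>
      intro n z a
      obtain ⟨N, hN, hm⟩ := hmove a n
      refine hdown a _ n N hN (fun z => ?_) z
      rw [pow_succ, mul_comm]
      refine step_move h0 h1 hdiag hrec a N hm _ (by
        apply pow_nonneg; linarith) (fun z w => ?_) z
      have := ih (N + 1) w (fun i => z i - w i)
      have e1 : (fun i => w i + (z i - w i)) = z := by funext i; ring
      rw [e1] at this
      exact this
  intro n z w
  have hlim : Filter.Tendsto (fun j : ℕ => (1 - δ) ^ j) Filter.atTop (nhds 0) :=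
    tendsto_pow_atTop_nhds_zero_of_lt_one (by linarith) (by linarith)
  have h2 : |F n z - F n w| ≤ 0 := by
    refine ge_of_tendsto' hlim fun j => ?_
    have := hclaim j n w (fun i => z i - w i)
    have e1 : (fun i => w i + (z i - w i)) = z := by funext i; ring
    rw [e1] at this
    exact this
  have h3 := abs_nonneg (F n z - F n w)
  have h4 : |F n z - F n w| = 0 := le_antisymm h2 h3
  rw [abs_eq_zero] at h4
  linarith

/-- All values at all levels coincide. -/
theorem flemma_const (δ : ℝ) (hδ : 0 < δ)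
    (hmove : ∀ (a : Fin k → ℤ) (n : ℕ), ∃ N ≥ n, Moves k a δ (r N) (e N))
    (h0 : ∀ n z, 0 ≤ F n z) (h1 : ∀ n z, F n z ≤ 1)
    (hdiag : ∀ n z (t : ℤ), F n (fun i => z i + t) = F n z)
    (hrec : ∀ n z, F n z * (((r n : ℝ) + 1) ^ k) =
      ∑ q : Fin k → Fin (r n + 1), F (n + 1) (fun i => z i + e n (q i))) :
    ∀ n z, F n z = F 0 0 := by
  have h := flemma δ hδ hmove h0 h1 hdiag hrec
  intro n
  induction n with
  | zero => intro z; exact h 0 z 0
  | succ n ih =>
    intro z
    have h2 := hrec n 0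
    have h3 : ∀ q : Fin k → Fin (r n + 1),
        F (n + 1) (fun i => (0 : Fin k → ℤ) i + e n (q i)) = F (n + 1) z := fun q => h _ _ _
    simp only [h3] at h2
    rw [Finset.sum_const, Finset.card_univ, Fintype.card_fun, Fintype.card_fin,
      Fintype.card_fin, nsmul_eq_mul, ih 0] at h2
    push_cast at h2
    have hR : (0 : ℝ) < ((r n : ℝ) + 1) ^ k := by positivity
    have h4 : (F 0 0 - F (n + 1) z) * ((r n : ℝ) + 1) ^ k = 0 := by linarith
    rcases mul_eq_zero.mp h4 with h5 | h5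
    · linarith
    · exact absurd h5 hR.ne'

end

end Pool.Agent.Helper543.Erg
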