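import Pool.Agent.Helper543.Erg.NonErg

set_option autoImplicit false
open Finset MeasureTheory

namespace Pool.Agent.Helper543.Erg

/-- Recursive choice of the stages. -/
lemma exists_seq (Q : ℕ → ℕ → ℕ → (r : ℕ) → (Fin (r + 1) → ℕ) → Prop)
    (h : ∀ n S R, ∃ r e, Q n S R r e) :
    ∃ (r : ℕ → ℕ) (e : (n : ℕ) → Fin (r n + 1) → ℕ),
      ∀ n, Q n (SS e n) (∏ m ∈ Finset.range n, (r m + 1)) (r n) (e n) := by
  choose rr ee hQ using h
  let st : ℕ → ℕ × ℕ := fun n => Nat.rec (0, 1) (fun n s =>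
    (s.1 + ee n s.1 s.2 (Fin.last _), s.2 * (rr n s.1 s.2 + 1))) n
  have hst0 : st 0 = (0, 1) := rfl
  have hst : ∀ n, st (n + 1) = ((st n).1 + ee n (st n).1 (st n).2 (Fin.last _),
    (st n).2 * (rr n (st n).1 (st n).2 + 1)) := fun n => rfl
  refine ⟨fun n => rr n (st n).1 (st n).2, fun n => ee n (st n).1 (st n).2, fun n => ?_⟩
  have h1 : ∀ n, SS (r := fun n => rr n (st n).1 (st n).2)
      (fun n => ee n (st n).1 (st n).2) n = (st n).1 := by
    intro n
    induction n with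
    | zero => simp [SS, hst0]
    | succ n ih =>
      unfold SS at ih ⊢
      rw [Finset.sum_range_succ, ih, hst]
  have h2 : ∀ n, ∏ m ∈ Finset.range n, (rr m (st m).1 (st m).2 + 1) = (st n).2 := by
    intro n
    induction n with
    | zero => simp [hst0]
    | succ n ih =>
      rw [Finset.prod_range_succ, ih, hst]
  rw [h1, h2]
  exact hQ n _ _

theorem exists_system : ∃ (X : Type) (_ : MeasurableSpace X) (_ : StandardBorelSpace X)
      (μ : Measure X) (_ : SigmaFinite μ) (_ : NullSingletonClass μ) (T : X ≃ᵐ X),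
      μ Set.univ = ⊤ ∧
      MeasurePreserving (T : X → X) μ μ ∧
      (∀ k : ℕ, 1 ≤ k →
        Ergodic (fun x : Fin k → X => fun i => T (x i))
          (Measure.pi (fun _ : Fin k => μ))) ∧
      ¬ Ergodic (fun p : X × X => (T p.1, T.symm p.2)) (μ.prod μ) := by
  classical
  obtain ⟨f, hf⟩ := exists_surjective_nat (Σ j : ℕ, (Fin (j + 2) → ℤ))
  let par : ℕ → Σ j : ℕ, (Fin (j + 2) → ℤ) := fun n => f (Nat.unpair n).1
  have hpar : ∀ (x : Σ j : ℕ, (Fin (j + 2) → ℤ)) (n : ℕ), ∃ N ≥ n, par N = x := by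
    intro x n
    obtain ⟨m, hm⟩ := hf x
    refine ⟨Nat.pair m n, Nat.right_le_pair m n, ?_⟩
    simp only [par, Nat.unpair_pair, hm]
  let ε : ℕ → ℝ := fun n => (1 / 4) * (1 / 2) ^ n
  have hεpos : ∀ n, 0 < ε n := fun n => by simp only [ε]; positivity
  have hεs : Summable ε := summable_geometric_two.mul_left _
  have hε1 : ∑' n, ε n < 1 := by
    simp only [ε]
    rw [tsum_mul_left, tsum_geometric_two]
    norm_num
  obtain ⟨r, e, hre⟩ := exists_seq (fun n S R r e => 1 ≤ r ∧ e 0 = 0 ∧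
      (∀ i : Fin r, e i.castSucc + (2 * S + R + 1) * (r + 1) < e i.succ) ∧
      Moves ((par n).1 + 2) (par n).2 (del ((par n).1 + 2)) r e ∧
      Sums (ε n) (2 * S + R + 1) r e) (by
    intro n S R
    exact comb ((par n).1 + 2) (by omega) (par n).2 (ε n) (hεpos n) (2 * S + R + 1))
  have hr : ∀ n, 1 ≤ r n := fun n => (hre n).1
  have he0 : ∀ n, e n 0 = 0 := fun n => (hre n).2.1
  have hgap := fun n => (hre n).2.2.1
  have hg : ∀ n (i : Fin (r n)), e n i.castSucc + SS e n < e n i.succ := by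
    intro n i
    have h1 := hgap n i
    have h2 : SS e n ≤ (2 * SS e n + (∏ m ∈ Finset.range n, (r m + 1)) + 1) * (r n + 1) := by
      calc SS e n ≤ (2 * SS e n + (∏ m ∈ Finset.range n, (r m + 1)) + 1) * 1 := by omega
        _ ≤ _ := Nat.mul_le_mul_left _ (by omega)
    omega
  have hbig : ∀ n (c : KK r), c ∈ piece r n →
      (∏ m ∈ Finset.range (n + 1), (r m + 1)) ≤ hh e c := by
    intro n c hc
    have h1 := hh_eq hg hc.1 hc.2
    obtain ⟨i, hi⟩ := Fin.exists_castSucc_eq.mpr hc.2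
    rw [← hi, Fin.coeSucc_eq_succ] at h1
    have h2 := hgap n i
    rw [Finset.prod_range_succ]
    have h3 : (2 * SS e n + (∏ m ∈ Finset.range n, (r m + 1)) + 1) * (r n + 1) =
        (∏ m ∈ Finset.range n, (r m + 1)) * (r n + 1) + (2 * SS e n + 1) * (r n + 1) := by ring
    have h4 : SS e n ≤ (2 * SS e n + 1) * (r n + 1) := by
      calc SS e n ≤ (2 * SS e n + 1) * 1 := by omega
        _ ≤ _ := Nat.mul_le_mul_left _ (by omega)
    omega
  refine ⟨KK r × ℕ, inferInstance, inferInstance, mu e, inferInstance, noAtoms_mu e hr, TE e,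
    mu_univ e hr hbig, mp_TT e hr, ?_, ?_⟩
  · intro k hk
    rcases Nat.lt_or_ge k 2 with h | h
    · have hk1 : k = 1 := by omega
      subst hk1
      exact ergodic_power hr he0 hg 1 one_pos (fun a n => ⟨n, le_rfl, moves_one a _ _⟩)
    · obtain ⟨j, rfl⟩ : ∃ j, k = j + 2 := ⟨k - 2, by omega⟩
      refine ergodic_power hr he0 hg (del (j + 2)) (del_pos _ (by omega)) (fun a n => ?_)
      obtain ⟨N, hN, hp⟩ := hpar ⟨j, a⟩ n
      refine ⟨N, hN, ?_⟩
      have := (hre N).2.2.2.1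
      rw [hp] at this
      exact this
  · exact not_ergodic_inv e hr he0 hg
      (fun n => 2 * SS e n + (∏ m ∈ Finset.range n, (r m + 1)) + 1) (fun n => by omega)
      ε (fun n => (hεpos n).le) hεs hε1 (fun n => (hre n).2.2.2.2)

end Pool.Agent.Helper543.Erg
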