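import Pool.Agent.Helper543.Erg.Meas
import Pool.Agent.Helper543.Erg.FLemma

set_option autoImplicit false
open Finset MeasureTheory

namespace Pool.Agent.Helper543.Erg

section

variable {r : ℕ → ℕ} (e : (n : ℕ) → Fin (r n + 1) → ℕ)

/-- The tower map as a permutation. -/
noncomputable def TP : Equiv.Perm (KK r × ℕ) := (TE e).toEquiv

lemma TP_apply (x : KK r × ℕ) : TP e x = TT e x := rfl

lemma TP_natCast (n : ℕ) (x : KK r × ℕ) : (TP e ^ (n : ℤ)) x = (TT e)^[n] x := by
  rw [zpow_natCast, ← Equiv.Perm.iterate_eq_pow]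
  rfl

lemma measurable_TPz (z : ℤ) : Measurable (fun x => (TP e ^ z) x) := by
  rcases z with n | n
  · have : (fun x => (TP e ^ (Int.ofNat n)) x) = (TT e)^[n] := by
      funext x
      exact TP_natCast e n x
    rw [this]
    exact (measurable_TT e).iterate n
  · have : (fun x => (TP e ^ (Int.negSucc n)) x) = (TT' e)^[n + 1] := by
      funext x
      rw [zpow_negSucc, ← inv_pow, ← Equiv.Perm.iterate_eq_pow]
      rfl
    rw [this]
    exact (measurable_TT' e).iterate (n + 1)

variable {e}

lemma TP_tail (he0 : ∀ n, e n 0 = 0)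
    (hg : ∀ n (i : Fin (r n)), e n i.castSucc + SS e n < e n i.succ) (n : ℕ) (c : KK r) (z : ℤ) :
    (TP e ^ (z + (ss e n c : ℤ))) (zz n c, 0) = (TP e ^ z) (c, 0) := by
  rw [zpow_add, Equiv.Perm.mul_apply, TP_natCast, TT_tail he0 hg]

variable (e) {k : ℕ}

/-- Sections of an invariant set. -/
def AA (A : Set (Fin k → KK r × ℕ)) (n : ℕ) (z : Fin k → ℤ) : Set (Fin k → KK r) :=
  {c | (fun i => (TP e ^ z i) (zz n (c i), 0)) ∈ A}

lemma measurable_zz (n : ℕ) : Measurable (zz n : KK r → KK r) := by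
  rw [measurable_pi_iff]
  intro m
  unfold zz
  by_cases h : m < n
  · simp only [h, if_true]
    exact measurable_const
  · simp only [h, if_false]
    exact measurable_pi_apply m

lemma meas_AA {A : Set (Fin k → KK r × ℕ)} (hA : MeasurableSet A) (n : ℕ) (z : Fin k → ℤ) :
    MeasurableSet (AA e A n z) := by
  have : Measurable (fun c : Fin k → KK r => fun i => (TP e ^ z i) (zz n (c i), 0)) := by
    rw [measurable_pi_iff]
    intro i
    exact (measurable_TPz e (z i)).comp
      (((measurable_zz n).comp (measurable_pi_apply i)).prodMk measurable_const)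
  exact this hA

/-- Product measure. -/
noncomputable abbrev kk (r : ℕ → ℕ) (k : ℕ) : Measure (Fin k → KK r) :=
  Measure.pi (fun _ : Fin k => kap r)

/-- Digit tuple evaluation. -/
def evk (r : ℕ → ℕ) (k n : ℕ) : (Fin k → KK r) →+ (Fin k → Fin (r n + 1)) where
  toFun c := fun i => c i n
  map_zero' := rfl
  map_add' _ _ := rfl

/-- Prefix tuple evaluation. -/
def prek (r : ℕ → ℕ) (k n : ℕ) : (Fin k → KK r) →+ (Fin k → (m : Fin n) → Fin (r m + 1)) where
  toFun c := fun i m => c i m
  map_zero' := rfl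
  map_add' _ _ := rfl

lemma measurable_evk (n : ℕ) : Measurable (evk r k n) := by
  rw [measurable_pi_iff]
  intro i
  exact (measurable_pi_apply n).comp (measurable_pi_apply i)

lemma measurable_prek (n : ℕ) : Measurable (prek r k n) := by
  rw [measurable_pi_iff]
  intro i
  rw [measurable_pi_iff]
  intro m
  exact (measurable_pi_apply (m : ℕ)).comp (measurable_pi_apply i)

variable {e}

lemma AA_inv_low (A : Set (Fin k → KK r × ℕ)) (n : ℕ) (z : Fin k → ℤ) (g : Fin k → KK r)
    (hg : ∀ i, ∀ m ≥ n, g i m = 0) (x : Fin k → KK r) :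
    g + x ∈ AA e A n z ↔ x ∈ AA e A n z := by
  have : ∀ i, zz n ((g + x) i) = zz n (x i) := by
    intro i
    funext m
    unfold zz
    by_cases h : m < n
    · simp [h]
    · simp only [h, if_false, Pi.add_apply]
      rw [hg i m (by omega), zero_add]
  unfold AA
  simp only [Set.mem_ofPred_eq, this]

lemma AA_digit (he0 : ∀ n, e n 0 = 0)
    (hg : ∀ n (i : Fin (r n)), e n i.castSucc + SS e n < e n i.succ)
    (A : Set (Fin k → KK r × ℕ)) (n : ℕ) (z : Fin k → ℤ) (q : Fin k → Fin (r n + 1)) :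
    evk r k n ⁻¹' {q} ∩ AA e A n z =
      evk r k n ⁻¹' {q} ∩ AA e A (n + 1) (fun i => z i + e n (q i)) := by
  ext c
  simp only [Set.mem_inter_iff, Set.mem_preimage, Set.mem_singleton_iff, and_congr_right_iff]
  intro hc
  have h1 : ∀ i, (TP e ^ z i) (zz n (c i), 0) =
      (TP e ^ (z i + (e n (q i) : ℤ))) (zz (n + 1) (c i), 0) := by
    intro i
    have hci : c i n = q i := congrFun hc i
    have h2 := TP_tail he0 hg (n + 1) (zz n (c i)) (z i)
    have h3 : zz (n + 1) (zz n (c i)) = zz (n + 1) (c i) := by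
      funext m
      unfold zz
      by_cases h : m < n + 1
      · simp [h]
      · simp only [h, if_false]
        rw [if_neg (by omega)]
    have h4 : ss e (n + 1) (zz n (c i)) = e n (q i) := by
      unfold ss
      rw [Finset.sum_range_succ]
      have h5 : ∑ m ∈ Finset.range n, e m (zz n (c i) m) = 0 := by
        refine Finset.sum_eq_zero fun m hm => ?_
        unfold zz
        rw [if_pos (Finset.mem_range.mp hm), he0]
      rw [h5, zero_add]
      unfold zz
      rw [if_neg (lt_irrefl n), hci]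
    rw [h3, h4] at h2
    exact h2.symm
  unfold AA
  simp only [Set.mem_ofPred_eq, h1]

lemma AA_prefix (he0 : ∀ n, e n 0 = 0)
    (hg : ∀ n (i : Fin (r n)), e n i.castSucc + SS e n < e n i.succ)
    (A : Set (Fin k → KK r × ℕ)) (n : ℕ) (z : Fin k → ℤ)
    (u : Fin k → (m : Fin n) → Fin (r m + 1)) :
    ∃ w : Fin k → ℤ, prek r k n ⁻¹' {u} ∩ AA e A 0 z = prek r k n ⁻¹' {u} ∩ AA e A n w := by
  refine ⟨fun i => z i + ((∑ m : Fin n, e m (u i m) : ℕ) : ℤ), ?_⟩
  ext c
  simp only [Set.mem_inter_iff, Set.mem_preimage, Set.mem_singleton_iff, and_congr_right_iff]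
  intro hc
  have h1 : ∀ i, (TP e ^ z i) (zz 0 (c i), 0) =
      (TP e ^ (z i + ((∑ m : Fin n, e m (u i m) : ℕ) : ℤ))) (zz n (c i), 0) := by
    intro i
    have h2 := TP_tail he0 hg n (c i) (z i)
    have h3 : zz 0 (c i) = c i := by
      funext m
      simp [zz]
    have h4 : ss e n (c i) = ∑ m : Fin n, e m (u i m) := by
      unfold ss
      rw [Finset.sum_range]
      refine Finset.sum_congr rfl fun m _ => ?_
      have : c i m = u i m := congrFun (congrFun hc i) m
      rw [this]
    rw [h3, ← h2, h4]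
  unfold AA
  simp only [Set.mem_ofPred_eq, h1]

lemma inv_zpow_mem {A : Set (Fin k → KK r × ℕ)} (hinv : (fun x i => TT e (x i)) ⁻¹' A = A)
    (t : ℤ) (x : Fin k → KK r × ℕ) : (fun i => (TP e ^ t) (x i)) ∈ A ↔ x ∈ A := by
  have h1 : ∀ x : Fin k → KK r × ℕ, (fun i => TP e (x i)) ∈ A ↔ x ∈ A := by
    intro x
    conv_rhs => rw [← hinv]
    rfl
  induction t using Int.induction_on generalizing x with
  | zero => simp
  | succ n ih =>
    have : (fun i => (TP e ^ ((n : ℤ) + 1)) (x i)) = fun i => (TP e ^ (n : ℤ)) (TP e (x i)) := by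
      funext i
      rw [zpow_add, zpow_one, Equiv.Perm.mul_apply]
    rw [this]
    exact (ih _).trans (h1 x)
  | pred n ih =>
    have : (fun i => (TP e ^ (-(n : ℤ))) (x i)) =
        fun i => TP e ((TP e ^ (-(n : ℤ) - 1)) (x i)) := by
      funext i
      have : -(n : ℤ) = 1 + (-(n : ℤ) - 1) := by ring
      conv_lhs => rw [this, zpow_add, zpow_one, Equiv.Perm.mul_apply]
    have h2 := ih x
    rw [this, h1] at h2
    exact h2

lemma AA_diag {A : Set (Fin k → KK r × ℕ)} (hinv : (fun x i => TT e (x i)) ⁻¹' A = A)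
    (n : ℕ) (z : Fin k → ℤ) (t : ℤ) : AA e A n (fun i => z i + t) = AA e A n z := by
  ext c
  unfold AA
  simp only [Set.mem_ofPred_eq]
  rw [← inv_zpow_mem hinv t (fun i => (TP e ^ z i) (zz n (c i), 0))]
  have : (fun i => (TP e ^ (z i + t)) (zz n (c i), 0)) =
      fun i => (TP e ^ t) ((TP e ^ z i) (zz n (c i), 0)) := by
    funext i
    rw [add_comm, zpow_add, Equiv.Perm.mul_apply]
  rw [this]

/-- The level functions. -/
noncomputable def FF (e : (n : ℕ) → Fin (r n + 1) → ℕ) (A : Set (Fin k → KK r × ℕ)) (n : ℕ)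
    (z : Fin k → ℤ) : ℝ := (kk r k (AA e A n z)).toReal

lemma measure_split {D : Type*} [Fintype D] {Ω : Type*} [MeasurableSpace Ω] (ν : Measure Ω)
    (f : Ω → D) (hf : ∀ q, MeasurableSet (f ⁻¹' {q})) (A : Set Ω) (hA : MeasurableSet A)
    (S : Finset D) : ν (f ⁻¹' S ∩ A) = ∑ q ∈ S, ν (f ⁻¹' {q} ∩ A) := by
  classical
  have : f ⁻¹' S ∩ A = ⋃ q ∈ S, (f ⁻¹' {q} ∩ A) := by
    ext x
    simp
  rw [this, measure_biUnion_finset]
  · intro q _ q' _ hqq
    refine Set.disjoint_left.mpr fun x hx hx' => hqq ?_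
    have e1 : f x = q := hx.1
    have e2 : f x = q' := hx'.1
    rw [← e1, e2]
  · intro q _
    exact (hf q).inter hA

lemma FF_rec (he0 : ∀ n, e n 0 = 0)
    (hg : ∀ n (i : Fin (r n)), e n i.castSucc + SS e n < e n i.succ)
    {A : Set (Fin k → KK r × ℕ)} (hA : MeasurableSet A) (n : ℕ) (z : Fin k → ℤ) :
    FF e A n z * (((r n : ℝ) + 1) ^ k) =
      ∑ q : Fin k → Fin (r n + 1), FF e A (n + 1) (fun i => z i + e n (q i)) := by
  classical
  have hmeas : ∀ q, MeasurableSet (evk r k n ⁻¹' {q}) := fun q =>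
    (measurable_evk n) (MeasurableSet.of_discrete)
  have h1 := measure_split (kk r k) (evk r k n) hmeas (AA e A n z) (meas_AA e hA n z) Finset.univ
  rw [Finset.coe_univ, Set.preimage_univ, Set.univ_inter] at h1
  have h2 : ∀ q, kk r k (evk r k n ⁻¹' {q} ∩ AA e A n z) *
      (Fintype.card (Fin k → Fin (r n + 1)) : ENNReal) =
      kk r k (AA e A (n + 1) (fun i => z i + e n (q i))) := by
    intro q
    rw [AA_digit he0 hg A n z q]
    refine uniform_fibre (kk r k) (evk r k n) hmeas _ (meas_AA e hA _ _) ?_ q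
    intro q
    refine ⟨fun i => Pi.single n (q i), ?_, fun x => AA_inv_low A (n + 1) _ _ ?_ x⟩
    · funext i
      change (Pi.single n (q i) : KK r) n = q i
      rw [Pi.single_eq_same]
    · intro i m hm
      rw [Pi.single_eq_of_ne (by omega)]
  have hR : ((Fintype.card (Fin k → Fin (r n + 1)) : ℕ) : ℝ) = ((r n : ℝ) + 1) ^ k := by
    rw [Fintype.card_fun, Fintype.card_fin, Fintype.card_fin]
    push_cast
    rfl
  unfold FF
  rw [h1, ENNReal.toReal_sum (fun q _ => measure_ne_top _ _), Finset.sum_mul, ← hR]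
  refine Finset.sum_congr rfl fun q _ => ?_
  rw [← h2 q, ENNReal.toReal_mul, ENNReal.toReal_natCast]

lemma pi_le_iSup : (MeasurableSpace.pi : MeasurableSpace (Fin k → KK r)) ≤
    ⨆ n, MeasurableSpace.comap (prek r k n) MeasurableSpace.pi := by
  unfold MeasurableSpace.pi
  refine iSup_le fun i => ?_
  rw [MeasurableSpace.comap_iSup]
  refine iSup_le fun m => ?_
  refine le_trans ?_ (le_iSup _ (m + 1))
  rw [MeasurableSpace.comap_comp]
  intro s hs
  obtain ⟨t, ht, rfl⟩ := hs
  refine ⟨{u | u i ⟨m, Nat.lt_succ_self m⟩ ∈ t}, MeasurableSet.of_discrete, rfl⟩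

lemma zero_one (he0 : ∀ n, e n 0 = 0)
    (hg : ∀ n (i : Fin (r n)), e n i.castSucc + SS e n < e n i.succ)
    {A : Set (Fin k → KK r × ℕ)} (hA : MeasurableSet A)
    (hconst : ∀ n z, FF e A n z = FF e A 0 0) (z : Fin k → ℤ) :
    kk r k (AA e A 0 z) = 0 ∨ kk r k (AA e A 0 z) = 1 := by
  classical
  have hconst' : ∀ n z, kk r k (AA e A n z) = kk r k (AA e A 0 0) := by
    intro n z
    have := hconst n z
    unfold FF at this
    rwa [ENNReal.toReal_eq_toReal_iff' (measure_ne_top _ _) (measure_ne_top _ _)] at this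
  set B := AA e A 0 z with hB
  have hBm : MeasurableSet B := meas_AA e hA 0 z
  have hmeas : ∀ n u, MeasurableSet (prek r k n ⁻¹' {u}) := fun n u =>
    (measurable_prek n) (MeasurableSet.of_discrete)
  have hcyl : ∀ n u, kk r k (prek r k n ⁻¹' {u} ∩ B) =
      kk r k (prek r k n ⁻¹' {u}) * kk r k B := by
    intro n u
    obtain ⟨w, hw⟩ := AA_prefix he0 hg A n z u
    have hgen : ∀ q : Fin k → (m : Fin n) → Fin (r m + 1), ∃ g : Fin k → KK r,
        prek r k n g = q ∧ ∀ i, ∀ m ≥ n, g i m = 0 := by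
      intro q
      refine ⟨fun i m => if h : m < n then q i ⟨m, h⟩ else 0, ?_, ?_⟩
      · funext i m
        change (if h : (m : ℕ) < n then q i ⟨m, h⟩ else 0) = q i m
        rw [dif_pos m.2]
      · intro i m hm
        dsimp only
        rw [dif_neg (by omega)]
    have h1 := uniform_fibre (kk r k) (prek r k n) (hmeas n) (AA e A n w) (meas_AA e hA _ _) (by
      intro q
      obtain ⟨g, hg1, hg2⟩ := hgen q
      exact ⟨g, hg1, fun x => AA_inv_low A n _ g hg2 x⟩) u
    have h2 := uniform_fibre (kk r k) (prek r k n) (hmeas n) Set.univ MeasurableSet.univ (by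
      intro q
      obtain ⟨g, hg1, hg2⟩ := hgen q
      exact ⟨g, hg1, fun x => by simp⟩) u
    rw [Set.inter_univ, measure_univ] at h2
    rw [hw]
    rw [hconst' n w, ← hconst' 0 z] at h1
    rw [← h1]
    have hc0 : ((Fintype.card (Fin k → (m : Fin n) → Fin (r m + 1)) : ℕ) : ENNReal) ≠ 0 := by
      rw [Nat.cast_ne_zero]
      exact Fintype.card_ne_zero
    rw [mul_comm (kk r k (prek r k n ⁻¹' {u} ∩ AA e A n w)), ← mul_assoc, h2, one_mul]
  have hind : ProbabilityTheory.Indep (⨆ n, MeasurableSpace.comap (prek r k n) MeasurableSpace.pi)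
      (MeasurableSpace.generateFrom {B}) (kk r k) := by
    refine ProbabilityTheory.indep_iSup_of_monotone ?_ ?_ ?_ ?_
    · intro n
      refine ProbabilityTheory.IndepSets.indep
        (p1 := {s | MeasurableSet[MeasurableSpace.comap (prek r k n) MeasurableSpace.pi] s})
        (p2 := {B}) ?_ ?_ ?_ ?_ ?_ rfl ?_
      · exact (measurable_prek n).comap_le
      · exact MeasurableSpace.generateFrom_le (fun t ht => by
          rw [Set.mem_singleton_iff] at ht
          rw [ht]; exact hBm)
      · exact @MeasurableSpace.isPiSystem_measurableSet _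
          (MeasurableSpace.comap (prek r k n) MeasurableSpace.pi)
      · exact IsPiSystem.singleton B
      · exact (@MeasurableSpace.generateFrom_measurableSet _
          (MeasurableSpace.comap (prek r k n) MeasurableSpace.pi)).symm
      · rw [ProbabilityTheory.IndepSets_iff]
        rintro t1 t2 ⟨S, -, rfl⟩ ht2
        rw [Set.mem_singleton_iff] at ht2
        rw [ht2]
        have e1 := measure_split (kk r k) (prek r k n) (hmeas n) B hBm S.toFinset
        have e2 := measure_split (kk r k) (prek r k n) (hmeas n) Set.univ MeasurableSet.univ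
          S.toFinset
        simp only [Set.coe_toFinset, Set.inter_univ] at e1 e2
        rw [e1, e2, Finset.sum_mul]
        exact Finset.sum_congr rfl fun u _ => hcyl n u
    · intro n
      exact (measurable_prek n).comap_le
    · exact MeasurableSpace.generateFrom_le (fun t ht => by
        rw [Set.mem_singleton_iff] at ht
        rw [ht]; exact hBm)
    · intro n n' hnn
      intro s hs
      obtain ⟨t, -, rfl⟩ := hs
      refine ⟨{u | (fun i (m : Fin n) => u i ⟨m, lt_of_lt_of_le m.2 hnn⟩) ∈ t},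
        MeasurableSet.of_discrete, rfl⟩
  rw [ProbabilityTheory.Indep_iff] at hind
  have h3 := hind B B (pi_le_iSup _ hBm) (MeasurableSpace.measurableSet_generateFrom rfl)
  rw [Set.inter_self] at h3
  by_cases h0 : kk r k B = 0
  · exact Or.inl h0
  · right
    have h4 : kk r k B * 1 = kk r k B * kk r k B := by rw [mul_one]; exact h3
    exact ((ENNReal.mul_right_inj h0 (measure_ne_top _ _)).mp h4).symm

lemma null_of_sections (A : Set (Fin k → KK r × ℕ)) (hA : MeasurableSet A)
    (h : ∀ z, kk r k (AA e A 0 z) = 0) : Measure.pi (fun _ : Fin k => mu e) A = 0 := by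
  classical
  have h1 : Measure.pi (fun _ : Fin k => mu e) =
      (Measure.pi (fun _ : Fin k => (kap r).prod (Measure.count : Measure ℕ))).restrict
        (Set.univ.pi fun _ => Dm e) := by
    rw [Measure.restrict_pi_pi]
    rfl
  have hD : MeasurableSet (Set.univ.pi fun _ : Fin k => Dm e) :=
    MeasurableSet.univ_pi fun _ => meas_Dm e
  rw [h1, Measure.restrict_apply hA]
  have hφ := measurePreserving_arrowProdEquivProdArrow (KK r) ℕ (Fin k) (fun _ => kap r)
    (fun _ => (Measure.count : Measure ℕ))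
  let S' : Set ((Fin k → KK r) × (Fin k → ℕ)) :=
    {x | (fun i => (x.1 i, x.2 i)) ∈ A ∩ Set.univ.pi fun _ : Fin k => Dm e}
  have hS'm : MeasurableSet S' := by
    have : Measurable (fun x : (Fin k → KK r) × (Fin k → ℕ) => fun i => (x.1 i, x.2 i)) := by
      rw [measurable_pi_iff]
      intro i
      exact ((measurable_pi_apply i).comp measurable_fst).prodMk
        ((measurable_pi_apply i).comp measurable_snd)
    exact this (hA.inter hD)
  have h2 : A ∩ (Set.univ.pi fun _ : Fin k => Dm e) =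
      (MeasurableEquiv.arrowProdEquivProdArrow (KK r) ℕ (Fin k)) ⁻¹' S' := rfl
  rw [h2, hφ.measure_preimage hS'm.nullMeasurableSet]
  have h3 : S' ⊆ ⋃ j : Fin k → ℕ, (AA e A 0 (fun i => (j i : ℤ))) ×ˢ {j} := by
    rintro ⟨c, j⟩ ⟨hx1, hx2⟩
    refine Set.mem_iUnion.mpr ⟨j, ?_, rfl⟩
    change (fun i => (TP e ^ (j i : ℤ)) (zz 0 (c i), 0)) ∈ A
    have : (fun i => (TP e ^ (j i : ℤ)) (zz 0 (c i), 0)) = fun i => (c i, j i) := by
      funext i
      have h4 : zz 0 (c i) = c i := by
        funext m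
        simp [zz]
      have h5 : j i < hh e (c i) := hx2 i (Set.mem_univ i)
      rw [h4, TP_natCast, TT_iter e (c i) (j i) h5]
    rw [this]
    exact hx1
  refine measure_mono_null h3 (measure_iUnion_null fun j => ?_)
  rw [Measure.prod_prod, h, zero_mul]

/-- **Ergodicity of the Cartesian powers.** -/
theorem ergodic_power (hr : ∀ n, 1 ≤ r n) (he0 : ∀ n, e n 0 = 0)
    (hg : ∀ n (i : Fin (r n)), e n i.castSucc + SS e n < e n i.succ) (δ : ℝ) (hδ : 0 < δ)
    (hmove : ∀ (a : Fin k → ℤ) (n : ℕ), ∃ N ≥ n, Moves k a δ (r N) (e N)) :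
    Ergodic (fun x : Fin k → KK r × ℕ => fun i => TE e (x i))
      (Measure.pi (fun _ : Fin k => mu e)) := by
  classical
  have hmp : MeasurePreserving (fun x : Fin k → KK r × ℕ => fun i => TE e (x i))
      (Measure.pi (fun _ : Fin k => mu e)) (Measure.pi (fun _ : Fin k => mu e)) :=
    measurePreserving_pi (fun _ => mu e) (fun _ => mu e) (fun _ => mp_TT e hr)
  refine ⟨hmp, ⟨?_⟩⟩
  intro A hA hinv
  have hinv' : (fun x i => TT e (x i)) ⁻¹' A = A := hinv
  have h01 : ∀ n z, FF e A n z ≤ 1 := by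
    intro n z
    unfold FF
    have h1 : kk r k (AA e A n z) ≤ 1 := prob_le_one
    have := ENNReal.toReal_mono ENNReal.one_ne_top h1
    simpa using this
  have hconst := flemma_const (k := k) (r := r) (e := e) (F := FF e A) δ hδ hmove
    (fun n z => ENNReal.toReal_nonneg) h01
    (fun n z t => by unfold FF; rw [AA_diag hinv']) (FF_rec he0 hg hA)
  have hz : ∀ z, kk r k (AA e A 0 z) = kk r k (AA e A 0 0) := by
    intro z
    have := hconst 0 z
    unfold FF at this
    rwa [ENNReal.toReal_eq_toReal_iff' (measure_ne_top _ _) (measure_ne_top _ _)] at this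
  rw [Filter.eventuallyConst_set']
  rcases zero_one he0 hg hA hconst 0 with h | h
  · left
    rw [ae_eq_empty]
    exact null_of_sections A hA (fun z => by rw [hz z, h])
  · right
    rw [ae_eq_univ]
    refine null_of_sections Aᶜ hA.compl (fun z => ?_)
    have : AA e Aᶜ 0 z = (AA e A 0 z)ᶜ := rfl
    rw [this, prob_compl_eq_zero_iff (meas_AA e hA 0 z), hz z, h]

end

end Pool.Agent.Helper543.Erg
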