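import Pool.Agent.Helper543.Erg.Tower

set_option autoImplicit false
open Finset MeasureTheory

namespace Pool.Agent.Helper543.Erg

/-- Uniformity principle: a translation invariant measure distributes evenly over the fibres of a
homomorphism to a finite group, inside a set invariant under enough translations. -/
lemma uniform_fibre {G D : Type*} [AddCommGroup G] [MeasurableSpace G] [MeasurableAdd G]
    [AddCommGroup D] [Fintype D] [DecidableEq D] (ν : Measure G) [ν.IsAddLeftInvariant]
    (f : G →+ D) (hf : ∀ q, MeasurableSet (f ⁻¹' {q})) (A : Set G) (hA : MeasurableSet A)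
    (hinv : ∀ q : D, ∃ g : G, f g = q ∧ ∀ x, g + x ∈ A ↔ x ∈ A) (q : D) :
    ν (f ⁻¹' {q} ∩ A) * (Fintype.card D : ENNReal) = ν A := by
  have h1 : ∀ q, ν (f ⁻¹' {q} ∩ A) = ν (f ⁻¹' {0} ∩ A) := by
    intro q
    obtain ⟨g, hg, hgA⟩ := hinv q
    rw [← measure_preimage_add ν g (f ⁻¹' {q} ∩ A)]
    congr 1
    ext x
    simp only [Set.mem_preimage, Set.mem_inter_iff, Set.mem_singleton_iff, map_add, hg, hgA x]
    constructor
    · rintro ⟨h, h'⟩
      exact ⟨by simpa using h, h'⟩
    · rintro ⟨h, h'⟩
      exact ⟨by simp [h], h'⟩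
  have h2 : ν A = ∑ q : D, ν (f ⁻¹' {q} ∩ A) := by
    have : A = ⋃ q : D, (f ⁻¹' {q} ∩ A) := by
      ext x
      simp
    conv_lhs => rw [this]
    rw [measure_iUnion, tsum_fintype]
    · intro q q' hqq
      refine Set.disjoint_left.mpr fun x hx hx' => hqq ?_
      have e1 : f x = q := hx.1
      have e2 : f x = q' := hx'.1
      rw [← e1, e2]
    · intro q
      exact (hf q).inter hA
  rw [h2, Finset.sum_congr rfl (fun q' _ => h1 q'), h1 q, Finset.sum_const, Finset.card_univ,
    nsmul_eq_mul, mul_comm]

section

variable (r : ℕ → ℕ)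

/-- Haar probability measure on the digit space. -/
noncomputable def kap : Measure (KK r) := Measure.addHaarMeasure ⊤

instance : IsProbabilityMeasure (kap r) := ⟨by
  have := Measure.addHaarMeasure_self (K₀ := (⊤ : TopologicalSpace.PositiveCompacts (KK r)))
  simpa [kap] using this⟩

instance : (kap r).IsAddHaarMeasure := by unfold kap; infer_instance

/-- Evaluation of the digit `n`. -/
def evn (n : ℕ) : KK r →+ Fin (r n + 1) := Pi.evalAddMonoidHom _ n

/-- Evaluation of the digits below `n`. -/
def pre (n : ℕ) : KK r →+ ((m : Fin n) → Fin (r m + 1)) where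
  toFun c := fun m => c m
  map_zero' := rfl
  map_add' _ _ := rfl

lemma meas_digit (n : ℕ) (S : Set (Fin (r n + 1))) : MeasurableSet {c : KK r | c n ∈ S} :=
  measurable_pi_apply n (MeasurableSet.of_discrete)

lemma kap_pre (n : ℕ) (u : (m : Fin n) → Fin (r m + 1)) :
    kap r (pre r n ⁻¹' {u}) * (∏ m ∈ Finset.range n, (r m + 1) : ℕ) = 1 := by
  classical
  have h := uniform_fibre (kap r) (pre r n) (by
    intro q
    have : pre r n ⁻¹' {q} = ⋂ m : Fin n, {c : KK r | c m ∈ ({q m} : Set (Fin (r m + 1)))} := by
      ext c
      simp only [Set.mem_preimage, Set.mem_singleton_iff, Set.mem_iInter, Set.mem_ofPred_eq]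
      exact funext_iff
    rw [this]
    exact MeasurableSet.iInter fun m => meas_digit r m _) Set.univ MeasurableSet.univ (by
      intro q
      exact ⟨fun m => if h : m < n then q ⟨m, h⟩ else 0, by
        funext m
        change (if h : (m : ℕ) < n then q ⟨m, h⟩ else 0) = q m
        rw [dif_pos m.2], fun x => by simp⟩) u
  rw [Set.inter_univ, measure_univ, Fintype.card_pi] at h
  simp only [Fintype.card_fin] at h
  rw [Finset.prod_range]
  exact h

/-- Measure of the set where the first `n` digits are all maximal. -/
lemma kap_last (n : ℕ) : kap r {c | ∀ l < n, c l = Fin.last (r l)} *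
    (∏ m ∈ Finset.range n, (r m + 1) : ℕ) = 1 := by
  have : {c : KK r | ∀ l < n, c l = Fin.last (r l)} =
      pre r n ⁻¹' ({fun m : Fin n => Fin.last (r m)} : Set ((m : Fin n) → Fin (r m + 1))) := by
    ext c
    simp only [Set.mem_ofPred_eq, Set.mem_preimage, Set.mem_singleton_iff]
    constructor
    · intro h
      funext m
      exact h m m.2
    · intro h l hl
      exact congrFun h ⟨l, hl⟩
  rw [this]
  exact kap_pre r n _

lemma noAtoms_kap (hr : ∀ n, 1 ≤ r n) : NullSingletonClass (kap r) := by
  constructor
  intro c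
  have h1 : ∀ n : ℕ, kap r {c} * (2 ^ n : ℕ) ≤ 1 := by
    intro n
    rw [← kap_pre r n (pre r n c)]
    have h2 : (2 ^ n : ℕ) ≤ ∏ m ∈ Finset.range n, (r m + 1) := by
      calc (2 ^ n : ℕ) = ∏ _m ∈ Finset.range n, 2 := by simp
        _ ≤ ∏ m ∈ Finset.range n, (r m + 1) := Finset.prod_le_prod' fun m _ => by
          have := hr m
          omega
    gcongr
    intro x hx
    rw [Set.mem_singleton_iff] at hx
    rw [hx]
    rfl
  by_contra hne
  have hpos : 0 < kap r {c} := pos_iff_ne_zero.mpr hne
  have hlt : kap r {c} ≠ ⊤ := measure_ne_top _ _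
  obtain ⟨n, hn⟩ := exists_nat_gt ((kap r {c}).toReal⁻¹)
  have hx : 0 < (kap r {c}).toReal := ENNReal.toReal_pos hne hlt
  have h3 := h1 n
  have h4 : (kap r {c}).toReal * (2 ^ n : ℕ) ≤ 1 := by
    have := ENNReal.toReal_mono (by simp) h3
    rw [ENNReal.toReal_mul] at this
    simpa using this
  have h5 : (n : ℝ) < ((2 ^ n : ℕ) : ℝ) := by exact_mod_cast Nat.lt_two_pow_self
  have h6 : 1 < (kap r {c}).toReal * n := by
    rw [inv_lt_iff_one_lt_mul₀ hx] at hn
    linarith
  nlinarith

lemma measurable_odo : Measurable (odo : KK r → KK r) := by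
  classical
  rw [measurable_pi_iff]
  intro m
  have hs : MeasurableSet {c : KK r | ∀ l < m, c l = Fin.last (r l)} := by
    have : {c : KK r | ∀ l < m, c l = Fin.last (r l)} =
        ⋂ l : ℕ, ⋂ _ : l < m, {c : KK r | c l ∈ ({Fin.last (r l)} : Set _)} := by
      ext c; simp
    rw [this]
    exact MeasurableSet.iInter fun l => MeasurableSet.iInter fun _ => meas_digit r l _
  exact Measurable.ite hs
    ((measurable_of_finite (fun x : Fin (r m + 1) => x + 1)).comp (measurable_pi_apply m))
    (measurable_pi_apply m)

lemma measurable_odo' : Measurable (odo' : KK r → KK r) := by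
  classical
  rw [measurable_pi_iff]
  intro m
  have hs : MeasurableSet {c : KK r | ∀ l < m, c l = 0} := by
    have : {c : KK r | ∀ l < m, c l = 0} =
        ⋂ l : ℕ, ⋂ _ : l < m, {c : KK r | c l ∈ ({0} : Set _)} := by
      ext c; simp
    rw [this]
    exact MeasurableSet.iInter fun l => MeasurableSet.iInter fun _ => meas_digit r l _
  exact Measurable.ite hs
    ((measurable_of_finite (fun x : Fin (r m + 1) => x - 1)).comp (measurable_pi_apply m))
    (measurable_pi_apply m)

/-- Pieces. -/
def piece (n : ℕ) : Set (KK r) := {c | (∀ l < n, c l = Fin.last (r l)) ∧ c n ≠ Fin.last (r n)}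

lemma meas_piece (n : ℕ) : MeasurableSet (piece r n) := by
  have : piece r n = (⋂ l : ℕ, ⋂ _ : l < n, {c : KK r | c l ∈ ({Fin.last (r l)} : Set _)}) ∩
      {c : KK r | c n ∈ ({Fin.last (r n)}ᶜ : Set _)} := by
    ext c; simp [piece]
  rw [this]
  exact (MeasurableSet.iInter fun l => MeasurableSet.iInter fun _ => meas_digit r l _).inter
    (meas_digit r n _)

lemma piece_disj : Pairwise (Function.onFun Disjoint (piece r)) := by
  intro n n' hnn
  refine Set.disjoint_left.mpr fun c hc hc' => hnn ?_
  rw [← nn_eq hc.1 hc.2, nn_eq hc'.1 hc'.2]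

/-- Pieces of the image. -/
def piece' (n : ℕ) : Set (KK r) := {c | (∀ l < n, c l = 0) ∧ c n ≠ 0}

lemma meas_piece' (n : ℕ) : MeasurableSet (piece' r n) := by
  have : piece' r n = (⋂ l : ℕ, ⋂ _ : l < n, {c : KK r | c l ∈ ({0} : Set _)}) ∩
      {c : KK r | c n ∈ ({0}ᶜ : Set _)} := by
    ext c; simp [piece']
  rw [this]
  exact (MeasurableSet.iInter fun l => MeasurableSet.iInter fun _ => meas_digit r l _).inter
    (meas_digit r n _)

lemma piece'_disj : Pairwise (Function.onFun Disjoint (piece' r)) := by
  intro n n' hnn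
  refine Set.disjoint_left.mpr fun c hc hc' => ?_
  rcases lt_or_gt_of_ne hnn with h | h
  · exact hc.2 (hc'.1 n h)
  · exact hc'.2 (hc.1 n' h)

lemma kap_odo (hr : ∀ n, 1 ≤ r n) (B : Set (KK r)) (hB : MeasurableSet B) :
    kap r (odo ⁻¹' B) = kap r B := by
  classical
  have hna := noAtoms_kap r hr
  -- decompositions
  have h1 : kap r (odo ⁻¹' B) = ∑' n, kap r (odo ⁻¹' B ∩ piece r n) := by
    rw [← measure_iUnion]
    · apply measure_congr
      rw [← Set.inter_iUnion]
      have : (⋃ n, piece r n)ᶜ ⊆ {fun n => Fin.last (r n)} := by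
        intro c hc
        rw [Set.mem_singleton_iff]
        by_contra hne
        apply hc
        have H : ∃ n, c n ≠ Fin.last (r n) := by
          by_contra hcon
          push Not at hcon
          exact hne (funext hcon)
        exact Set.mem_iUnion.mpr ⟨nn c, nn_spec H⟩
      have hnull : kap r (⋃ n, piece r n)ᶜ = 0 := measure_mono_null this (measure_singleton _)
      have hae : (⋃ n, piece r n) =ᵐ[kap r] Set.univ := by
        rw [ae_eq_univ]; exact hnull
      have := (ae_eq_refl (odo ⁻¹' B)).inter hae
      rw [Set.inter_univ] at this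
      exact this.symm
    · intro n n' hnn
      exact (piece_disj r hnn).mono Set.inter_subset_right Set.inter_subset_right
    · intro n
      exact ((measurable_odo r) hB).inter (meas_piece r n)
  have h2 : kap r B = ∑' n, kap r (B ∩ piece' r n) := by
    rw [← measure_iUnion]
    · apply measure_congr
      rw [← Set.inter_iUnion]
      have : (⋃ n, piece' r n)ᶜ ⊆ {0} := by
        intro c hc
        rw [Set.mem_singleton_iff]
        by_contra hne
        apply hc
        have H : ∃ n, c n ≠ 0 := by
          by_contra hcon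
          push Not at hcon
          exact hne (funext hcon)
        refine Set.mem_iUnion.mpr ⟨Nat.find H, ?_, Nat.find_spec H⟩
        intro l hl
        have := Nat.find_min H hl
        push Not at this
        exact this
      have hnull : kap r (⋃ n, piece' r n)ᶜ = 0 := measure_mono_null this (measure_singleton _)
      have hae : (⋃ n, piece' r n) =ᵐ[kap r] Set.univ := by
        rw [ae_eq_univ]; exact hnull
      have := (ae_eq_refl B).inter hae
      rw [Set.inter_univ] at this
      exact this.symm
    · intro n n' hnn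
      exact (piece'_disj r hnn).mono Set.inter_subset_right Set.inter_subset_right
    · intro n
      exact hB.inter (meas_piece' r n)
  rw [h1, h2]
  congr 1
  funext n
  let g : KK r := fun m => if m ≤ n then 1 else 0
  rw [← measure_preimage_add (kap r) g (B ∩ piece' r n)]
  congr 1
  ext c
  simp only [Set.mem_inter_iff, Set.mem_preimage]
  have hp : g + c ∈ piece' r n ↔ c ∈ piece r n := by
    constructor
    · rintro ⟨h3, h4⟩
      refine ⟨fun l hl => ?_, fun h5 => ?_⟩
      · have := h3 l hl
        simp only [g, Pi.add_apply, if_pos hl.le] at this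
        exact eq_last_of_add_one ((add_comm _ _).trans this)
      · apply h4
        simp only [g, Pi.add_apply, if_pos le_rfl]
        rw [h5]
        exact (add_comm _ _).trans (last_add_one' _)
    · rintro ⟨h3, h4⟩
      refine ⟨fun l hl => ?_, fun h5 => ?_⟩
      · simp only [g, Pi.add_apply, if_pos hl.le]
        rw [h3 l hl]
        exact (add_comm _ _).trans (last_add_one' _)
      · apply h4
        simp only [g, Pi.add_apply, if_pos le_rfl] at h5
        exact eq_last_of_add_one ((add_comm _ _).trans h5)
  have hq : c ∈ piece r n → odo c = g + c := by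
    rintro ⟨h3, h4⟩
    funext m
    unfold odo
    by_cases hm : m ≤ n
    · rw [if_pos (fun l hl => h3 l (lt_of_lt_of_le hl hm))]
      simp only [g, Pi.add_apply, if_pos hm]
      exact add_comm _ _
    · rw [if_neg (fun h => h4 (h n (by omega)))]
      simp [g, hm]
  constructor
  · rintro ⟨h3, h4⟩
    rw [hq h4] at h3
    exact ⟨h3, hp.mpr h4⟩
  · rintro ⟨h3, h4⟩
    rw [hp] at h4
    rw [hq h4]
    exact ⟨h3, h4⟩

variable {r} (e : (n : ℕ) → Fin (r n + 1) → ℕ)

lemma measurable_nn : Measurable (nn : KK r → ℕ) := by
  classical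
  refine measurable_to_countable' fun n => ?_
  by_cases hn : n = 0
  · subst hn
    have : (nn : KK r → ℕ) ⁻¹' {0} = (⋃ n, piece r (n + 1))ᶜ := by
      ext c
      simp only [Set.mem_preimage, Set.mem_singleton_iff, Set.mem_compl_iff, Set.mem_iUnion,
        not_exists]
      constructor
      · intro h n hc
        have := nn_eq hc.1 hc.2
        omega
      · intro h
        by_contra hne
        by_cases H : ∃ n, c n ≠ Fin.last (r n)
        · obtain ⟨m, hm⟩ : ∃ m, nn c = m + 1 := ⟨nn c - 1, by omega⟩
          apply h m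
          rw [← hm]
          exact nn_spec H
        · apply hne
          unfold nn
          rw [dif_neg H]
    rw [this]
    exact (MeasurableSet.iUnion fun n => meas_piece r _).compl
  · have : (nn : KK r → ℕ) ⁻¹' {n} = piece r n := by
      ext c
      simp only [Set.mem_preimage, Set.mem_singleton_iff]
      constructor
      · intro h
        have H : ∃ n, c n ≠ Fin.last (r n) := by
          by_contra hcon
          unfold nn at h
          rw [dif_neg hcon] at h
          exact hn h.symm
        rw [← h]
        exact nn_spec H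
      · intro h
        exact nn_eq h.1 h.2
    rw [this]
    exact meas_piece r n

lemma measurable_hh : Measurable (hh e : KK r → ℕ) := by
  have h1 : Measurable (fun x : KK r × ℕ => hgt e x.1 x.2) := by
    apply measurable_from_prod_countable_left
    intro n
    exact (measurable_of_finite (fun x : Fin (r n + 1) =>
      max 1 (e n (x + 1) - (e n x + SS e n)))).comp (measurable_pi_apply n)
  exact h1.comp (measurable_id.prodMk measurable_nn)

lemma measurable_TT : Measurable (TT e : KK r × ℕ → KK r × ℕ) := by
  classical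
  have hh1 := measurable_hh e
  apply measurable_from_prod_countable_left
  intro j
  unfold TT
  dsimp only
  refine Measurable.ite ?_ (measurable_id.prodMk measurable_const) (Measurable.ite ?_
    ((measurable_odo r).prodMk measurable_const) (measurable_id.prodMk measurable_const))
  · exact measurableSet_lt measurable_const hh1
  · exact measurableSet_eq_fun measurable_const hh1

lemma measurable_TT' : Measurable (TT' e : KK r × ℕ → KK r × ℕ) := by
  classical
  have hh1 := measurable_hh e
  apply measurable_from_prod_countable_left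
  intro j
  unfold TT'
  dsimp only
  by_cases hj : j = 0
  · simp only [hj, if_true]
    refine (measurable_odo' r).prodMk ?_
    exact (measurable_of_countable (fun n : ℕ => n - 1)).comp (hh1.comp (measurable_odo' r))
  · simp only [hj, if_false]
    refine Measurable.ite ?_ (measurable_id.prodMk measurable_const)
      (measurable_id.prodMk measurable_const)
    exact measurableSet_lt measurable_const hh1

/-- The tower map as a measurable equivalence. -/
noncomputable def TE : (KK r × ℕ) ≃ᵐ (KK r × ℕ) where
  toFun := TT e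
  invFun := TT' e
  left_inv := TT'_TT e
  right_inv := TT_TT' e
  measurable_toFun := measurable_TT e
  measurable_invFun := measurable_TT' e

/-- The domain of the tower. -/
def Dm : Set (KK r × ℕ) := {x | x.2 < hh e x.1}

lemma meas_Dm : MeasurableSet (Dm e) :=
  measurableSet_lt measurable_snd ((measurable_hh e).comp measurable_fst)

/-- The measure on the tower. -/
noncomputable def mu : Measure (KK r × ℕ) := ((kap r).prod Measure.count).restrict (Dm e)

lemma mu_apply (B : Set (KK r × ℕ)) (hB : MeasurableSet B) :
    mu e B = ∑' j : ℕ, kap r {c | (c, j) ∈ B ∧ j < hh e c} := by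
  unfold mu
  rw [Measure.restrict_apply hB, Measure.prod_apply_symm (hB.inter (meas_Dm e)),
    lintegral_count]
  rfl

lemma mu_TT (hr : ∀ n, 1 ≤ r n) (B : Set (KK r × ℕ)) (hB : MeasurableSet B) :
    mu e (TT e ⁻¹' B) = mu e B := by
  have hh1 := measurable_hh e
  rw [mu_apply e _ (measurable_TT e hB), mu_apply e B hB]
  have hsec : ∀ j : ℕ, MeasurableSet {c : KK r | (c, j) ∈ B} := fun j =>
    (measurable_id.prodMk measurable_const) hB
  have h1 : ∀ j : ℕ, kap r {c | (c, j) ∈ TT e ⁻¹' B ∧ j < hh e c} =
      kap r {c | (c, j + 1) ∈ B ∧ j + 1 < hh e c} +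
        kap r (odo ⁻¹' {c | (c, 0) ∈ B} ∩ {c | hh e c = j + 1}) := by
    intro j
    rw [← measure_union]
    · congr 1
      ext c
      simp only [Set.mem_ofPred_eq, Set.mem_preimage, Set.mem_union, Set.mem_inter_iff]
      unfold TT
      constructor
      · rintro ⟨h, hj⟩
        by_cases h2 : j + 1 < hh e c
        · rw [if_pos h2] at h
          exact Or.inl ⟨h, h2⟩
        · rw [if_neg h2, if_pos (by dsimp only; omega)] at h
          exact Or.inr ⟨h, by omega⟩
      · rintro (⟨h, hj⟩ | ⟨h, hj⟩)
        · rw [if_pos hj]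
          exact ⟨h, by omega⟩
        · rw [if_neg (by dsimp only; omega), if_pos (by dsimp only; omega)]
          exact ⟨h, by omega⟩
    · refine Set.disjoint_left.mpr ?_
      rintro c ⟨-, h⟩ ⟨-, h'⟩
      simp only [Set.mem_ofPred_eq] at h'
      omega
    · exact ((measurable_odo r) (hsec 0)).inter (measurableSet_eq_fun hh1 measurable_const)
  have h2 : ∑' j : ℕ, kap r (odo ⁻¹' {c | (c, 0) ∈ B} ∩ {c | hh e c = j + 1}) =
      kap r (odo ⁻¹' {c | (c, 0) ∈ B}) := by
    rw [← measure_iUnion]
    · congr 1
      rw [← Set.inter_iUnion]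
      have : (⋃ j : ℕ, {c : KK r | hh e c = j + 1}) = Set.univ := by
        ext c
        simp only [Set.mem_iUnion, Set.mem_ofPred_eq, Set.mem_univ, iff_true]
        have := hh_pos e c
        exact ⟨hh e c - 1, by omega⟩
      rw [this, Set.inter_univ]
    · intro j j' hjj
      refine Set.disjoint_left.mpr ?_
      rintro c ⟨-, h⟩ ⟨-, h'⟩
      simp only [Set.mem_ofPred_eq] at h h'
      omega
    · intro j
      exact ((measurable_odo r) (hsec 0)).inter (measurableSet_eq_fun hh1 measurable_const)
  rw [tsum_congr h1, ENNReal.tsum_add, h2, kap_odo r hr _ (hsec 0)]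
  have h3 : (fun j : ℕ => kap r {c | (c, j) ∈ B ∧ j < hh e c}) 0 = kap r {c | (c, 0) ∈ B} := by
    dsimp only
    congr 1
    ext c
    have := hh_pos e c
    simp only [Set.mem_ofPred_eq, and_iff_left_iff_imp]
    intro _
    omega
  rw [tsum_eq_zero_add' (f := fun j : ℕ => kap r {c | (c, j) ∈ B ∧ j < hh e c})
    ENNReal.summable]
  dsimp only at h3
  rw [h3, add_comm]

lemma mp_TT (hr : ∀ n, 1 ≤ r n) : MeasurePreserving (TE e : KK r × ℕ → KK r × ℕ) (mu e) (mu e) := by
  refine ⟨measurable_TT e, ?_⟩
  ext B hB
  change Measure.map (TT e) (mu e) B = _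
  rw [Measure.map_apply (measurable_TT e) hB]
  exact mu_TT e hr B hB

instance : SigmaFinite (mu e) := by
  unfold mu
  infer_instance

lemma noAtoms_mu (hr : ∀ n, 1 ≤ r n) : NullSingletonClass (mu e) := by
  have := noAtoms_kap r hr
  unfold mu
  infer_instance

lemma mu_univ (hr : ∀ n, 1 ≤ r n)
    (hbig : ∀ n (c : KK r), c ∈ piece r n → (∏ m ∈ Finset.range (n + 1), (r m + 1)) ≤ hh e c) :
    mu e Set.univ = ⊤ := by
  have hh1 := measurable_hh e
  have h1 : mu e Set.univ = ∫⁻ c, (hh e c : ENNReal) ∂(kap r) := by
    unfold mu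
    rw [Measure.restrict_apply MeasurableSet.univ, Set.univ_inter,
      Measure.prod_apply (meas_Dm e)]
    refine lintegral_congr fun c => ?_
    have : (Prod.mk c ⁻¹' Dm e) = ((Finset.range (hh e c) : Finset ℕ) : Set ℕ) := by
      ext j
      simp [Dm]
    rw [this, Measure.count_apply_finset]
    simp
  have hp : ∀ n, kap r (piece r n) * (∏ m ∈ Finset.range (n + 1), (r m + 1) : ℕ) ≥ 1 := by
    intro n
    have hsplit : kap r {c | ∀ l < n, c l = Fin.last (r l)} =
        kap r (piece r n) + kap r {c | ∀ l < n + 1, c l = Fin.last (r l)} := by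
      rw [← measure_union]
      · congr 1
        ext c
        simp only [Set.mem_ofPred_eq, Set.mem_union, piece]
        constructor
        · intro h
          by_cases hc : c n = Fin.last (r n)
          · right
            intro l hl
            rcases Nat.lt_succ_iff_lt_or_eq.mp hl with h' | h'
            · exact h l h'
            · subst h'; exact hc
          · exact Or.inl ⟨h, hc⟩
        · rintro (h | h)
          · exact h.1
          · exact fun l hl => h l (by omega)
      · refine Set.disjoint_left.mpr ?_
        rintro c ⟨-, h⟩ h'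
        exact h (h' n (Nat.lt_succ_self n))
      · have : {c : KK r | ∀ l < n + 1, c l = Fin.last (r l)} =
            ⋂ l : ℕ, ⋂ _ : l < n + 1, {c : KK r | c l ∈ ({Fin.last (r l)} : Set _)} := by
          ext c; simp
        rw [this]
        exact MeasurableSet.iInter fun l => MeasurableSet.iInter fun _ => meas_digit r l _
    have h2 := kap_last r n
    have h3 := kap_last r (n + 1)
    rw [hsplit] at h2
    rw [Finset.prod_range_succ, Nat.cast_mul] at h3 ⊢
    have h4 : (2 : ENNReal) ≤ ((r n + 1 : ℕ) : ENNReal) := by
      have := hr n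
      exact_mod_cast (by omega : 2 ≤ r n + 1)
    set x := kap r (piece r n)
    set y := kap r {c | ∀ l < n + 1, c l = Fin.last (r l)}
    set R := ((∏ m ∈ Finset.range n, (r m + 1) : ℕ) : ENNReal)
    set w := ((r n + 1 : ℕ) : ENNReal)
    have h5 : x * (R * w) + 1 = w := by
      calc x * (R * w) + 1 = x * (R * w) + y * (R * w) := by rw [h3]
        _ = ((x + y) * R) * w := by ring
        _ = w := by rw [h2, one_mul]
    have h6 : (1 : ENNReal) + 1 ≤ x * (R * w) + 1 := by
      rw [h5]
      calc (1 : ENNReal) + 1 = 2 := by norm_num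
        _ ≤ w := h4
    exact (ENNReal.add_le_add_iff_right ENNReal.one_ne_top).mp h6
  rw [h1, eq_top_iff]
  calc (⊤ : ENNReal) = ∑' _n : ℕ, (1 : ENNReal) :=
        (ENNReal.tsum_const_eq_top_of_ne_zero one_ne_zero).symm
    _ ≤ ∑' n : ℕ, ∫⁻ c in piece r n, (hh e c : ENNReal) ∂(kap r) := by
        refine ENNReal.tsum_le_tsum fun n => ?_
        calc (1 : ENNReal) ≤ kap r (piece r n) *
              (∏ m ∈ Finset.range (n + 1), (r m + 1) : ℕ) := hp n
          _ = ∫⁻ _c in piece r n, ((∏ m ∈ Finset.range (n + 1), (r m + 1) : ℕ) : ENNReal)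
              ∂(kap r) := by
              rw [setLIntegral_const, mul_comm]
          _ ≤ ∫⁻ c in piece r n, (hh e c : ENNReal) ∂(kap r) := by
              refine setLIntegral_mono' (meas_piece r n) fun c hc => ?_
              exact_mod_cast hbig n c hc
    _ = ∫⁻ c in ⋃ n, piece r n, (hh e c : ENNReal) ∂(kap r) := by
        rw [lintegral_iUnion (meas_piece r) (piece_disj r)]
    _ ≤ ∫⁻ c, (hh e c : ENNReal) ∂(kap r) := setLIntegral_le_lintegral _ _

end

end Pool.Agent.Helper543.Erg
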