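import Pool.Agent.Helper543.Erg.Index

set_option autoImplicit false
open Finset MeasureTheory

namespace Pool.Agent.Helper543.Erg

section

variable {r : ℕ → ℕ} {e : (n : ℕ) → Fin (r n + 1) → ℕ}

lemma e_le_last (hg : ∀ n (i : Fin (r n)), e n i.castSucc + SS e n < e n i.succ) (n : ℕ)
    (x : Fin (r n + 1)) : e n x ≤ e n (Fin.last (r n)) := by
  have hmono : Monotone (e n) := by
    rw [Fin.monotone_iff_le_succ]
    intro i
    have := hg n i
    omega
  exact hmono (Fin.le_last x)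

lemma orbit_int (he0 : ∀ n, e n 0 = 0)
    (hg : ∀ n (i : Fin (r n)), e n i.castSucc + SS e n < e n i.succ) (c c' : KK r)
    (hc : ∀ n, c n ≠ Fin.last (r n)) (hc' : ∀ n, c' n ≠ Fin.last (r n)) (t : ℤ)
    (h : (TP e ^ t) (c, 0) = (c', 0)) :
    ∃ n0, ∀ n ≥ n0, (ss e n c' : ℤ) = ss e n c + t := by
  have key : ∀ (c c' : KK r) (t : ℕ), (∀ n, c n ≠ Fin.last (r n)) →
      (TT e)^[t] (c, 0) = (c', 0) → ∃ n0, ∀ n ≥ n0, ss e n c' = ss e n c + t := by
    intro c c' t hc h
    obtain ⟨-, n0, hn0⟩ := orbit_nat he0 hg c 0 (hh_pos e c) (fun n => ⟨n, le_rfl, hc n⟩) t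
    refine ⟨n0, fun n hn => ?_⟩
    have := (hn0 n hn).2
    rw [h] at this
    simpa using this
  rcases le_or_gt 0 t with ht | ht
  · obtain ⟨s, rfl⟩ := Int.eq_ofNat_of_zero_le ht
    have h1 : (TP e ^ ((s : ℕ) : ℤ)) (c, 0) = (c', 0) := h
    rw [TP_natCast] at h1
    obtain ⟨n0, hn0⟩ := key c c' s hc h1
    refine ⟨n0, fun n hn => ?_⟩
    rw [hn0 n hn]
    push_cast
    rfl
  · obtain ⟨s, hs⟩ : ∃ s : ℕ, t = -(s : ℤ) := ⟨t.natAbs, by omega⟩
    subst hs
    have h1 : (TP e ^ ((s : ℕ) : ℤ)) (c', 0) = (c, 0) := by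
      rw [← h, ← Equiv.Perm.mul_apply, ← zpow_add]
      simp
    rw [TP_natCast] at h1
    obtain ⟨n0, hn0⟩ := key c' c s hc' h1
    refine ⟨n0, fun n hn => ?_⟩
    rw [hn0 n hn]
    push_cast
    ring

/-- Sums of partial sums never differ by exactly one. -/
lemma no_one (hg : ∀ n (i : Fin (r n)), e n i.castSucc + SS e n < e n i.succ) (L : ℕ → ℕ)
    (hL : ∀ n, 2 * SS e n + 1 ≤ L n) (c1 c2 c1' c2' : KK r)
    (h : ∀ n, e n (c1 n) + e n (c2 n) = e n (c1' n) + e n (c2' n) ∨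
      (L n : ℤ) < |((e n (c1 n) : ℤ) + e n (c2 n)) - (e n (c1' n) + e n (c2' n))|) (n : ℕ) :
    ((ss e n c1' : ℤ) + ss e n c2') - (ss e n c1 + ss e n c2) ≠ 1 := by
  have hss : ∀ n (c : KK r), ss e n c ≤ SS e n := by
    intro n c
    exact Finset.sum_le_sum fun m _ => e_le_last hg m (c m)
  have key : ∀ n, ((ss e n c1' : ℤ) + ss e n c2') - (ss e n c1 + ss e n c2) = 0 ∨
      1 < |((ss e n c1' : ℤ) + ss e n c2') - (ss e n c1 + ss e n c2)| := by
    intro n
    induction n with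
    | zero => left; simp [ss]
    | succ n ih =>
      have e1 : ∀ c : KK r, (ss e (n + 1) c : ℤ) = ss e n c + e n (c n) := by
        intro c
        unfold ss
        rw [Finset.sum_range_succ]
        push_cast
        ring
      rw [e1 c1, e1 c2, e1 c1', e1 c2']
      rcases h n with h1 | h1
      · have h1' : (e n (c1 n) : ℤ) + e n (c2 n) = e n (c1' n) + e n (c2' n) := by
          exact_mod_cast h1
        have : ((ss e n c1' : ℤ) + e n (c1' n) + (ss e n c2' + e n (c2' n))) -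
            (ss e n c1 + e n (c1 n) + (ss e n c2 + e n (c2 n))) =
            ((ss e n c1' : ℤ) + ss e n c2') - (ss e n c1 + ss e n c2) := by linarith
        rw [this]
        exact ih
      · right
        have b1 := hss n c1
        have b2 := hss n c2
        have b3 := hss n c1'
        have b4 := hss n c2'
        have hLn := hL n
        rcases lt_abs.mp h1 with h2 | h2
        · rw [lt_abs]; right; omega
        · rw [lt_abs]; left; omega
  intro h1
  rcases key n with h2 | h2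
  · rw [h1] at h2; exact one_ne_zero h2
  · rw [h1] at h2; simp at h2

variable (e)

lemma map_le_mu : Measure.map (fun c : KK r => (c, (0 : ℕ))) (kap r) ≤ mu e := by
  have hm : Measurable (fun c : KK r => (c, (0 : ℕ))) := measurable_id.prodMk measurable_const
  rw [Measure.le_iff]
  intro B hB
  rw [Measure.map_apply hm hB, mu_apply e B hB]
  refine le_trans ?_ (ENNReal.le_tsum 0)
  apply measure_mono
  intro c hc
  exact ⟨hc, hh_pos e c⟩

/-- Good pairs. -/
def Gd (G : (n : ℕ) → Finset (Fin (r n + 1) × Fin (r n + 1))) : Set (KK r × KK r) :=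
  {c | ∀ n, (c.1 n, c.2 n) ∈ G n}

/-- Pair digit evaluation. -/
def ev2 (r : ℕ → ℕ) (n : ℕ) : (KK r × KK r) →+ (Fin (r n + 1) × Fin (r n + 1)) where
  toFun c := (c.1 n, c.2 n)
  map_zero' := rfl
  map_add' _ _ := rfl

lemma measurable_ev2 (n : ℕ) : Measurable (ev2 r n) :=
  ((measurable_pi_apply n).comp measurable_fst).prodMk
    ((measurable_pi_apply n).comp measurable_snd)

lemma meas_Gd (G : (n : ℕ) → Finset (Fin (r n + 1) × Fin (r n + 1))) : MeasurableSet (Gd G) := by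
  have : Gd G = ⋂ n, ev2 r n ⁻¹' (G n) := by
    ext c
    simp [Gd, ev2]
  rw [this]
  exact MeasurableSet.iInter fun n => (measurable_ev2 n) (MeasurableSet.of_discrete)

lemma Gd_pos (G : (n : ℕ) → Finset (Fin (r n + 1) × Fin (r n + 1))) (ε : ℕ → ℝ)
    (hε0 : ∀ n, 0 ≤ ε n) (hε : Summable ε) (hε1 : ∑' n, ε n < 1)
    (hG : ∀ n, (1 - ε n) * ((r n : ℝ) + 1) ^ 2 ≤ (G n).card) :
    0 < ((kap r).prod (kap r)) (Gd G) := by
  classical
  have hmeas : ∀ n q, MeasurableSet (ev2 r n ⁻¹' {q}) := fun n q =>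
    (measurable_ev2 n) (MeasurableSet.of_discrete)
  have hq : ∀ n q, ((kap r).prod (kap r)) (ev2 r n ⁻¹' {q}) *
      ((Fintype.card (Fin (r n + 1) × Fin (r n + 1)) : ℕ) : ENNReal) = 1 := by
    intro n q
    have h1 := uniform_fibre ((kap r).prod (kap r)) (ev2 r n) (hmeas n) Set.univ
      MeasurableSet.univ (by
        intro q
        refine ⟨(Pi.single n q.1, Pi.single n q.2), ?_, fun x => by simp⟩
        change ((Pi.single n q.1 : KK r) n, (Pi.single n q.2 : KK r) n) = q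
        rw [Pi.single_eq_same, Pi.single_eq_same]) q
    rw [Set.inter_univ, measure_univ] at h1
    exact h1
  have hbad : ∀ n, ((kap r).prod (kap r)) (ev2 r n ⁻¹' (G n : Set _))ᶜ ≤
      ENNReal.ofReal (ε n) := by
    intro n
    have h1 := measure_split ((kap r).prod (kap r)) (ev2 r n) (hmeas n) Set.univ
      MeasurableSet.univ (G n)ᶜ
    simp only [Set.inter_univ, Finset.coe_compl, Set.preimage_compl] at h1
    have hcard : ((Fintype.card (Fin (r n + 1) × Fin (r n + 1)) : ℕ) : ℝ) =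
        ((r n : ℝ) + 1) ^ 2 := by
      rw [Fintype.card_prod, Fintype.card_fin]
      push_cast
      ring
    have hpos : (0 : ℝ) < ((r n : ℝ) + 1) ^ 2 := by positivity
    have h2 : ((kap r).prod (kap r)) (ev2 r n ⁻¹' (G n : Set _))ᶜ *
        ((Fintype.card (Fin (r n + 1) × Fin (r n + 1)) : ℕ) : ENNReal) =
        ((((G n)ᶜ).card : ℕ) : ENNReal) := by
      rw [h1, Finset.sum_mul, Finset.sum_congr rfl (fun q _ => hq n q), Finset.sum_const,
        nsmul_eq_mul, mul_one]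
    have h3 : (((kap r).prod (kap r)) (ev2 r n ⁻¹' (G n : Set _))ᶜ).toReal *
        (((r n : ℝ) + 1) ^ 2) = (((G n)ᶜ).card : ℕ) := by
      have := congrArg ENNReal.toReal h2
      rw [ENNReal.toReal_mul, ENNReal.toReal_natCast, ENNReal.toReal_natCast, hcard] at this
      exact this
    have h4 : ((((G n)ᶜ).card : ℕ) : ℝ) ≤ ε n * ((r n : ℝ) + 1) ^ 2 := by
      rw [Finset.card_compl, Nat.cast_sub (Finset.card_le_univ _), hcard]
      have := hG n
      linarith
    rw [← h3] at h4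
    have h5 := le_of_mul_le_mul_right h4 hpos
    rw [← ENNReal.ofReal_toReal (measure_ne_top ((kap r).prod (kap r)) _)]
    exact ENNReal.ofReal_le_ofReal h5
  have hcompl : ((kap r).prod (kap r)) (Gd G)ᶜ < 1 := by
    have h1 : (Gd G)ᶜ ⊆ ⋃ n, (ev2 r n ⁻¹' (G n : Set _))ᶜ := by
      intro c hc
      simp only [Gd, Set.mem_compl_iff, Set.mem_ofPred_eq, not_forall] at hc
      obtain ⟨n, hn⟩ := hc
      exact Set.mem_iUnion.mpr ⟨n, hn⟩
    calc ((kap r).prod (kap r)) (Gd G)ᶜ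
        ≤ ((kap r).prod (kap r)) (⋃ n, (ev2 r n ⁻¹' (G n : Set _))ᶜ) := measure_mono h1
      _ ≤ ∑' n, ((kap r).prod (kap r)) (ev2 r n ⁻¹' (G n : Set _))ᶜ := measure_iUnion_le _
      _ ≤ ∑' n, ENNReal.ofReal (ε n) := ENNReal.tsum_le_tsum hbad
      _ = ENNReal.ofReal (∑' n, ε n) := (ENNReal.ofReal_tsum_of_nonneg hε0 hε).symm
      _ < 1 := by
          rw [← ENNReal.ofReal_one]
          exact (ENNReal.ofReal_lt_ofReal_iff one_pos).mpr hε1
  rw [pos_iff_ne_zero]
  intro h0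
  have := prob_compl_eq_one_iff (μ := (kap r).prod (kap r)) (meas_Gd G) |>.mpr h0
  rw [this] at hcompl
  exact lt_irrefl _ hcompl

/-- **Non-ergodicity of the product with the inverse.** -/
theorem not_ergodic_inv (hr : ∀ n, 1 ≤ r n) (he0 : ∀ n, e n 0 = 0)
    (hg : ∀ n (i : Fin (r n)), e n i.castSucc + SS e n < e n i.succ) (L : ℕ → ℕ)
    (hL : ∀ n, 2 * SS e n + 1 ≤ L n)
    (ε : ℕ → ℝ) (hε0 : ∀ n, 0 ≤ ε n) (hε : Summable ε) (hε1 : ∑' n, ε n < 1)
    (hsums : ∀ n, Sums (ε n) (L n) (r n) (e n)) :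
    ¬ Ergodic (fun p : (KK r × ℕ) × (KK r × ℕ) => (TE e p.1, (TE e).symm p.2))
      ((mu e).prod (mu e)) := by
  classical
  choose G hG1 hG2 hG3 using hsums
  intro herg
  let Gi : Set ((KK r × ℕ) × (KK r × ℕ)) := {p | p.1.2 = 0 ∧ p.2.2 = 0 ∧ (p.1.1, p.2.1) ∈ Gd G}
  have hGim : MeasurableSet Gi := by
    have h1 : MeasurableSet {p : (KK r × ℕ) × (KK r × ℕ) | p.1.2 = 0} :=
      (measurable_snd.comp measurable_fst) (MeasurableSet.of_discrete (s := ({0} : Set ℕ)))
    have h2 : MeasurableSet {p : (KK r × ℕ) × (KK r × ℕ) | p.2.2 = 0} :=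
      (measurable_snd.comp measurable_snd) (MeasurableSet.of_discrete (s := ({0} : Set ℕ)))
    have h3 : MeasurableSet {p : (KK r × ℕ) × (KK r × ℕ) | (p.1.1, p.2.1) ∈ Gd G} :=
      ((measurable_fst.comp measurable_fst).prodMk (measurable_fst.comp measurable_snd))
        (meas_Gd G)
    exact h1.inter (h2.inter h3)
  let Sat : Set ((KK r × ℕ) × (KK r × ℕ)) :=
    {p | ∃ m : ℤ, ((TP e ^ m) p.1, (TP e ^ (-m)) p.2) ∈ Gi}
  have hSatm : MeasurableSet Sat := by
    have : Sat = ⋃ m : ℤ, (fun p : (KK r × ℕ) × (KK r × ℕ) =>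
        ((TP e ^ m) p.1, (TP e ^ (-m)) p.2)) ⁻¹' Gi := by
      ext p
      simp [Sat]
    rw [this]
    exact MeasurableSet.iUnion fun m =>
      (((measurable_TPz e m).comp measurable_fst).prodMk
        ((measurable_TPz e (-m)).comp measurable_snd)) hGim
  have hSinv : (fun p : (KK r × ℕ) × (KK r × ℕ) => (TE e p.1, (TE e).symm p.2)) ⁻¹' Sat =
      Sat := by
    have hstep : ∀ (p : (KK r × ℕ) × (KK r × ℕ)) (m : ℤ),
        ((TP e ^ m) (TE e p.1), (TP e ^ (-m)) ((TE e).symm p.2)) =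
        ((TP e ^ (m + 1)) p.1, (TP e ^ (-(m + 1))) p.2) := by
      intro p m
      have h1 : (TP e ^ (m + 1)) p.1 = (TP e ^ m) (TE e p.1) := by
        rw [zpow_add, zpow_one, Equiv.Perm.mul_apply]
        rfl
      have h2 : (TP e ^ (-(m + 1))) p.2 = (TP e ^ (-m)) ((TE e).symm p.2) := by
        rw [neg_add, zpow_add, zpow_neg_one, Equiv.Perm.mul_apply]
        rfl
      rw [h1, h2]
    ext p
    constructor
    · rintro ⟨m, hm⟩
      refine ⟨m + 1, ?_⟩
      rw [← hstep p m]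
      exact hm
    · rintro ⟨m, hm⟩
      refine ⟨m - 1, ?_⟩
      have := hstep p (m - 1)
      rw [sub_add_cancel] at this
      change ((TP e ^ (m - 1)) (TE e p.1), (TP e ^ (-(m - 1))) ((TE e).symm p.2)) ∈ Gi
      rw [this]
      exact hm
  have hGipos : 0 < ((mu e).prod (mu e)) Gi := by
    have hm : Measurable (fun c : KK r => (c, (0 : ℕ))) := measurable_id.prodMk measurable_const
    have h1 : (Measure.map (fun c : KK r => (c, (0 : ℕ))) (kap r)).prod
        (Measure.map (fun c : KK r => (c, (0 : ℕ))) (kap r)) ≤ (mu e).prod (mu e) :=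
      Measure.prod_mono (map_le_mu e) (map_le_mu e)
    refine lt_of_lt_of_le ?_ (h1 Gi)
    rw [Measure.map_prod_map _ _ hm hm, Measure.map_apply (hm.prodMap hm) hGim]
    have h2 : Prod.map (fun c : KK r => (c, (0 : ℕ))) (fun c : KK r => (c, (0 : ℕ))) ⁻¹' Gi =
        Gd G := by
      ext c
      simp [Gi]
    rw [h2]
    exact Gd_pos G ε hε0 hε hε1 hG1
  let W : Set ((KK r × ℕ) × (KK r × ℕ)) := {p | ((TE e).symm p.1, p.2) ∈ Gi}
  have hWpos : 0 < ((mu e).prod (mu e)) W := by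
    have hmp : MeasurePreserving (Prod.map (TE e).symm (id : KK r × ℕ → KK r × ℕ))
        ((mu e).prod (mu e)) ((mu e).prod (mu e)) :=
      ((mp_TT e hr).symm (TE e)).prod (MeasurePreserving.id _)
    have h1 : W = Prod.map (TE e).symm (id : KK r × ℕ → KK r × ℕ) ⁻¹' Gi := rfl
    rw [h1, hmp.measure_preimage hGim.nullMeasurableSet]
    exact hGipos
  have hdisj : W ⊆ Satᶜ := by
    rintro ⟨p1, p2⟩ hW ⟨m, hm⟩
    obtain ⟨hx1, hx2, hx3⟩ := hW
    obtain ⟨hy1, hy2, hy3⟩ := hm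
    dsimp only at hx1 hx2 hx3 hy1 hy2 hy3
    set x := (TE e).symm p1 with hx
    have hp1 : p1 = TE e x := by rw [hx, MeasurableEquiv.apply_symm_apply]
    obtain ⟨c1, j1⟩ := x
    obtain ⟨c2, j2⟩ := p2
    dsimp only at hx1 hx2 hx3
    subst hx1 hx2
    have e1 : (TP e ^ (m + 1)) (c1, 0) = (TP e ^ m) p1 := by
      rw [hp1, zpow_add, zpow_one, Equiv.Perm.mul_apply]
      rfl
    set y1 := (TP e ^ m) p1 with hy1'
    set y2 := (TP e ^ (-m)) (c2, 0) with hy2'
    obtain ⟨c1', j1'⟩ := y1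
    obtain ⟨c2', j2'⟩ := y2
    dsimp only at hy1 hy2 hy3
    subst hy1 hy2
    have hne : ∀ {c d : KK r}, (c, d) ∈ Gd G →
        (∀ n, c n ≠ Fin.last (r n)) ∧ ∀ n, d n ≠ Fin.last (r n) := by
      intro c d hcd
      exact ⟨fun n => (hG2 n _ (hcd n)).1, fun n => (hG2 n _ (hcd n)).2⟩
    obtain ⟨n1, hn1⟩ := orbit_int he0 hg c1 c1' (hne hx3).1 (hne hy3).1 (m + 1) e1
    obtain ⟨n2, hn2⟩ := orbit_int he0 hg c2 c2' (hne hx3).2 (hne hy3).2 (-m) hy2'.symm
    have h3 := hn1 (max n1 n2) (le_max_left _ _)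
    have h4 := hn2 (max n1 n2) (le_max_right _ _)
    refine no_one hg L hL c1 c2 c1' c2' (fun n => ?_) (max n1 n2) ?_
    · exact hG3 n _ (hx3 n) _ (hy3 n)
    · rw [h3, h4]; ring
  have hconst := herg.aeconst_set hSatm hSinv
  rw [Filter.eventuallyConst_set'] at hconst
  rcases hconst with h | h
  · rw [ae_eq_empty] at h
    have h1 : Gi ⊆ Sat := fun p hp => ⟨0, by simpa using hp⟩
    exact absurd (measure_mono_null h1 h) hGipos.ne'
  · rw [ae_eq_univ] at h
    exact absurd (measure_mono_null hdisj h) hWpos.ne'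

end

end Pool.Agent.Helper543.Erg
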