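import Mathlib

set_option autoImplicit false
open Finset

namespace Pool.Agent.Helper543.Erg

/-- The digit space. -/
abbrev KK (r : ℕ → ℕ) := (n : ℕ) → Fin (r n + 1)

section

variable {r : ℕ → ℕ}

open Classical in
/-- The odometer: add one with carry. -/
noncomputable def odo (c : KK r) : KK r :=
  fun m => if ∀ l < m, c l = Fin.last (r l) then c m + 1 else c m

open Classical in
/-- The inverse odometer. -/
noncomputable def odo' (c : KK r) : KK r :=
  fun m => if ∀ l < m, c l = 0 then c m - 1 else c m

lemma last_add_one' (n : ℕ) : Fin.last n + 1 = 0 := Fin.last_add_one n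

lemma eq_last_of_add_one {n : ℕ} {x : Fin (n + 1)} (h : x + 1 = 0) : x = Fin.last n := by
  rw [← last_add_one' n] at h
  exact add_right_cancel h

lemma odo_zero_iff (c : KK r) (m : ℕ) :
    (∀ l < m, odo c l = 0) ↔ ∀ l < m, c l = Fin.last (r l) := by
  constructor
  · intro h l
    induction l using Nat.strong_induction_on with
    | _ l ih =>
      intro hl
      have h1 := h l hl
      unfold odo at h1
      rw [if_pos (fun l' hl' => ih l' hl' (hl'.trans hl))] at h1
      exact eq_last_of_add_one h1
  · intro h l hl
    unfold odo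
    rw [if_pos (fun l' hl' => h l' (hl'.trans hl)), h l hl, last_add_one']

lemma odo'_last_iff (c : KK r) (m : ℕ) :
    (∀ l < m, odo' c l = Fin.last (r l)) ↔ ∀ l < m, c l = 0 := by
  constructor
  · intro h l
    induction l using Nat.strong_induction_on with
    | _ l ih =>
      intro hl
      have h1 := h l hl
      unfold odo' at h1
      rw [if_pos (fun l' hl' => ih l' hl' (hl'.trans hl))] at h1
      have h2 : c l = Fin.last (r l) + 1 := by rw [← h1, sub_add_cancel]
      rw [h2, last_add_one']
  · intro h l hl
    unfold odo'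
    rw [if_pos (fun l' hl' => h l' (hl'.trans hl)), h l hl, sub_eq_iff_eq_add, last_add_one']

lemma odo'_odo (c : KK r) : odo' (odo c) = c := by
  funext m
  unfold odo'
  by_cases h : ∀ l < m, c l = Fin.last (r l)
  · rw [if_pos ((odo_zero_iff c m).mpr h)]
    unfold odo
    rw [if_pos h, add_sub_cancel_right]
  · rw [if_neg (fun h' => h ((odo_zero_iff c m).mp h'))]
    unfold odo
    rw [if_neg h]

lemma odo_odo' (c : KK r) : odo (odo' c) = c := by
  funext m
  unfold odo
  by_cases h : ∀ l < m, c l = 0
  · rw [if_pos ((odo'_last_iff c m).mpr h)]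
    unfold odo'
    rw [if_pos h, sub_add_cancel]
  · rw [if_neg (fun h' => h ((odo'_last_iff c m).mp h'))]
    unfold odo'
    rw [if_neg h]

open Classical in
/-- First index whose digit is not maximal. -/
noncomputable def nn (c : KK r) : ℕ :=
  if H : ∃ n, c n ≠ Fin.last (r n) then Nat.find H else 0

lemma nn_eq {c : KK r} {n : ℕ} (h1 : ∀ l < n, c l = Fin.last (r l))
    (h2 : c n ≠ Fin.last (r n)) : nn c = n := by
  classical
  have H : ∃ n, c n ≠ Fin.last (r n) := ⟨n, h2⟩
  unfold nn
  rw [dif_pos H]
  apply le_antisymm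
  · exact Nat.find_min' H h2
  · by_contra hlt
    push Not at hlt
    exact Nat.find_spec H (h1 _ hlt)

lemma nn_spec {c : KK r} (H : ∃ n, c n ≠ Fin.last (r n)) :
    (∀ l < nn c, c l = Fin.last (r l)) ∧ c (nn c) ≠ Fin.last (r (nn c)) := by
  classical
  unfold nn
  rw [dif_pos H]
  refine ⟨fun l hl => ?_, Nat.find_spec H⟩
  have := Nat.find_min H hl
  push Not at this
  exact this

variable (e : (n : ℕ) → Fin (r n + 1) → ℕ)

/-- Sum of the maximal values of the earlier stages. -/
def SS (n : ℕ) : ℕ := ∑ m ∈ Finset.range n, e m (Fin.last (r m))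

/-- Level value of the first `n` digits. -/
def ss (n : ℕ) (c : KK r) : ℕ := ∑ m ∈ Finset.range n, e m (c m)

/-- Height candidates. -/
def hgt (c : KK r) (n : ℕ) : ℕ := max 1 (e n (c n + 1) - (e n (c n) + SS e n))

/-- Height function. -/
noncomputable def hh (c : KK r) : ℕ := hgt e c (nn c)

lemma hh_pos (c : KK r) : 1 ≤ hh e c := le_max_left _ _

open Classical in
/-- The tower map. -/
noncomputable def TT (x : KK r × ℕ) : KK r × ℕ :=
  if x.2 + 1 < hh e x.1 then (x.1, x.2 + 1)
  else if x.2 + 1 = hh e x.1 then (odo x.1, 0) else x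

open Classical in
/-- Inverse of the tower map. -/
noncomputable def TT' (x : KK r × ℕ) : KK r × ℕ :=
  if x.2 = 0 then (odo' x.1, hh e (odo' x.1) - 1)
  else if x.2 < hh e x.1 then (x.1, x.2 - 1) else x

lemma TT'_TT (x : KK r × ℕ) : TT' e (TT e x) = x := by
  obtain ⟨c, j⟩ := x
  have hp := hh_pos e c
  unfold TT
  by_cases h1 : j + 1 < hh e c
  · rw [if_pos h1]
    unfold TT'
    rw [if_neg (by simp), if_pos h1]
    simp
  · rw [if_neg h1]
    by_cases h2 : j + 1 = hh e c
    · rw [if_pos h2]
      unfold TT'
      rw [if_pos rfl]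
      dsimp only
      rw [odo'_odo, ← h2]
      simp
    · rw [if_neg h2]
      unfold TT'
      dsimp only at h1 h2 ⊢
      rw [if_neg (by omega), if_neg (by omega)]

lemma TT_TT' (x : KK r × ℕ) : TT e (TT' e x) = x := by
  obtain ⟨c, j⟩ := x
  have hp := hh_pos e c
  unfold TT'
  by_cases h1 : j = 0
  · subst h1
    rw [if_pos rfl]
    have hp' := hh_pos e (odo' c)
    unfold TT
    dsimp only
    rw [if_neg (by omega), if_pos (by omega), odo_odo']
  · rw [if_neg h1]
    by_cases h2 : j < hh e c
    · rw [if_pos h2]
      unfold TT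
      dsimp only
      have h3 : j - 1 + 1 = j := by omega
      rw [h3, if_pos h2]
    · rw [if_neg h2]
      unfold TT
      dsimp only at h1 h2 ⊢
      rw [if_neg (by omega), if_neg (by omega)]

lemma TT_iter (c : KK r) (j : ℕ) (hj : j < hh e c) : (TT e)^[j] (c, 0) = (c, j) := by
  induction j with
  | zero => rfl
  | succ j ih =>
    rw [Function.iterate_succ_apply', ih (by omega)]
    unfold TT
    rw [if_pos hj]

lemma TT_iter_hh (c : KK r) : (TT e)^[hh e c] (c, 0) = (odo c, 0) := by
  have hp := hh_pos e c
  obtain ⟨j, hj⟩ : ∃ j, hh e c = j + 1 := ⟨hh e c - 1, by omega⟩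
  rw [hj, Function.iterate_succ_apply', TT_iter e c j (by omega)]
  unfold TT
  rw [if_neg (by dsimp only; omega), if_pos (by dsimp only; omega)]

/-- Zero the first `n` digits. -/
def zz (n : ℕ) (c : KK r) : KK r := fun m => if m < n then 0 else c m

variable {e}

lemma hh_eq (hg : ∀ n (i : Fin (r n)), e n i.castSucc + SS e n < e n i.succ) {c : KK r} {n : ℕ}
    (h1 : ∀ l < n, c l = Fin.last (r l)) (h2 : c n ≠ Fin.last (r n)) :
    hh e c + (e n (c n) + SS e n) = e n (c n + 1) := by
  unfold hh
  rw [nn_eq h1 h2]
  unfold hgt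
  obtain ⟨i, hi⟩ := Fin.exists_castSucc_eq.mpr h2
  have h3 := hg n i
  rw [← hi, Fin.coeSucc_eq_succ]
  rw [max_eq_right (by omega)]
  omega

lemma TT_tail (he0 : ∀ n, e n 0 = 0)
    (hg : ∀ n (i : Fin (r n)), e n i.castSucc + SS e n < e n i.succ) :
    ∀ (n : ℕ) (c : KK r), (TT e)^[ss e n c] (zz n c, 0) = (c, 0) := by
  intro n
  induction n with
  | zero =>
    intro c
    have h1 : zz 0 c = c := by
      funext m
      simp [zz]
    simp [ss, h1]
  | succ n ih =>
    intro c
    have hclaim : ∀ i : Fin (r n + 1),
        (TT e)^[e n i] (Function.update (zz n c) n 0, 0) = (Function.update (zz n c) n i, 0) := by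
      intro i
      induction i using Fin.induction with
      | zero =>
        rw [he0]
        rfl
      | succ i hi =>
        let m : KK r := Function.update (fun l => if l < n then Fin.last (r l) else c l) n
          i.castSucc
        have hm1 : ∀ l < n, m l = Fin.last (r l) := by
          intro l hl
          simp only [m]
          rw [Function.update_of_ne hl.ne, if_pos hl]
        have hm2 : m n = i.castSucc := by simp [m]
        have hm2' : m n ≠ Fin.last (r n) := by
          rw [hm2]; exact (Fin.castSucc_lt_last i).ne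
        have hm3 : ∀ l, n < l → m l = c l := by
          intro l hl
          simp only [m]
          rw [Function.update_of_ne hl.ne', if_neg (by omega)]
        have hz : zz n m = Function.update (zz n c) n i.castSucc := by
          funext l
          rcases lt_trichotomy l n with hl | hl | hl
          · rw [Function.update_of_ne hl.ne]
            simp [zz, hl]
          · subst hl
            rw [Function.update_self]
            simp only [zz, lt_irrefl, if_false]
            exact hm2
          · rw [Function.update_of_ne hl.ne']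
            have : ¬ l < n := by omega
            simp only [zz, this, if_false]
            exact hm3 l hl
        have hs : ss e n m = SS e n := by
          refine Finset.sum_congr rfl fun l hl => ?_
          rw [hm1 l (Finset.mem_range.mp hl)]
        have h1 := ih m
        rw [hz, hs] at h1
        have h2 := TT_iter_hh e m
        have hO : odo m = Function.update (zz n c) n i.succ := by
          funext l
          unfold odo
          rcases lt_trichotomy l n with hl | hl | hl
          · rw [Function.update_of_ne hl.ne, if_pos (fun l' hl' => hm1 l' (hl'.trans hl)),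
              hm1 l hl, last_add_one']
            simp [zz, hl]
          · subst hl
            rw [Function.update_self, if_pos hm1, hm2, Fin.coeSucc_eq_succ]
          · rw [Function.update_of_ne hl.ne', if_neg (fun h => hm2' (h n hl)), hm3 l hl]
            have : ¬ l < n := by omega
            simp [zz, this]
        rw [hO] at h2
        have h3 := hh_eq hg hm1 hm2'
        rw [hm2, Fin.coeSucc_eq_succ] at h3
        rw [← h3, Function.iterate_add_apply, add_comm, Function.iterate_add_apply, hi, h1, h2]
    have hz : zz (n + 1) c = Function.update (zz n c) n 0 := by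
      funext l
      by_cases hl : l = n
      · subst hl
        rw [Function.update_self]
        simp [zz]
      · rw [Function.update_of_ne hl]
        unfold zz
        have : l < n + 1 ↔ l < n := by omega
        simp only [this]
    have hz2 : Function.update (zz n c) n (c n) = zz n c := by
      funext l
      by_cases hl : l = n
      · subst hl
        rw [Function.update_self]
        simp [zz]
      · rw [Function.update_of_ne hl]
    have hs : ss e (n + 1) c = ss e n c + e n (c n) := Finset.sum_range_succ _ _
    rw [hs, Function.iterate_add_apply, hz, hclaim (c n), hz2, ih c]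

lemma ss_odo (he0 : ∀ n, e n 0 = 0)
    (hg : ∀ n (i : Fin (r n)), e n i.castSucc + SS e n < e n i.succ) {c : KK r} {n1 : ℕ}
    (h1 : ∀ l < n1, c l = Fin.last (r l)) (h2 : c n1 ≠ Fin.last (r n1)) (n : ℕ) (hn : n1 < n) :
    ss e n (odo c) = ss e n c + hh e c := by
  induction n, hn using Nat.le_induction with
  | base =>
    have e1 : ss e (n1 + 1) (odo c) = ss e n1 (odo c) + e n1 (odo c n1) :=
      Finset.sum_range_succ _ _
    have e2 : ss e (n1 + 1) c = ss e n1 c + e n1 (c n1) := Finset.sum_range_succ _ _
    have e3 : ss e n1 (odo c) = 0 := by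
      refine Finset.sum_eq_zero fun l hl => ?_
      rw [(odo_zero_iff c n1).mpr h1 l (Finset.mem_range.mp hl), he0]
    have e4 : ss e n1 c = SS e n1 := by
      refine Finset.sum_congr rfl fun l hl => ?_
      rw [h1 l (Finset.mem_range.mp hl)]
    have e5 : odo c n1 = c n1 + 1 := by
      unfold odo
      rw [if_pos h1]
    have e6 := hh_eq hg h1 h2
    rw [e1, e2, e3, e4, e5]
    omega
  | succ n hn ih =>
    have e1 : ss e (n + 1) (odo c) = ss e n (odo c) + e n (odo c n) := Finset.sum_range_succ _ _
    have e2 : ss e (n + 1) c = ss e n c + e n (c n) := Finset.sum_range_succ _ _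
    have e3 : odo c n = c n := by
      unfold odo
      rw [if_neg (fun h => h2 (h n1 hn))]
    rw [e1, e2, e3, ih]
    omega

/-- Domain is preserved. -/
lemma TT_dom {x : KK r × ℕ} (hx : x.2 < hh e x.1) : (TT e x).2 < hh e (TT e x).1 := by
  unfold TT
  by_cases h1 : x.2 + 1 < hh e x.1
  · rw [if_pos h1]
    exact h1
  · rw [if_neg h1, if_pos (by omega)]
    have := hh_pos e (odo x.1)
    dsimp only
    omega

lemma orbit_nat (he0 : ∀ n, e n 0 = 0)
    (hg : ∀ n (i : Fin (r n)), e n i.castSucc + SS e n < e n i.succ) (c : KK r) (j : ℕ)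
    (hj : j < hh e c) (hc : ∀ n, ∃ m ≥ n, c m ≠ Fin.last (r m)) (t : ℕ) :
    ((TT e)^[t] (c, j)).2 < hh e ((TT e)^[t] (c, j)).1 ∧
    ∃ n0, ∀ n ≥ n0, (∀ m ≥ n, ((TT e)^[t] (c, j)).1 m = c m) ∧
      ss e n ((TT e)^[t] (c, j)).1 + ((TT e)^[t] (c, j)).2 = ss e n c + j + t := by
  induction t with
  | zero => exact ⟨hj, 0, fun n _ => ⟨fun m _ => rfl, rfl⟩⟩
  | succ t ih =>
    obtain ⟨hdom, n0, hn0⟩ := ih
    rw [Function.iterate_succ_apply']
    generalize (TT e)^[t] (c, j) = x at hdom hn0 ⊢
    refine ⟨TT_dom hdom, ?_⟩
    have H : ∃ n, x.1 n ≠ Fin.last (r n) := by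
      obtain ⟨m, hm, hm'⟩ := hc n0
      refine ⟨m, ?_⟩
      rw [(hn0 n0 le_rfl).1 m hm]
      exact hm'
    obtain ⟨h1, h2⟩ := nn_spec H
    refine ⟨max n0 (nn x.1 + 1), fun n hn => ?_⟩
    have hn1 : n0 ≤ n := le_trans (le_max_left _ _) hn
    have hn2 : nn x.1 < n := lt_of_lt_of_le (Nat.lt_succ_self _) (le_trans (le_max_right _ _) hn)
    obtain ⟨hA, hB⟩ := hn0 n hn1
    unfold TT
    by_cases hc1 : x.2 + 1 < hh e x.1
    · rw [if_pos hc1]
      refine ⟨hA, ?_⟩
      dsimp only
      omega
    · rw [if_neg hc1, if_pos (by omega)]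
      refine ⟨fun m hm => ?_, ?_⟩
      · dsimp only
        unfold odo
        rw [if_neg (fun h => h2 (h _ (by omega)))]
        exact hA m hm
      · dsimp only
        rw [ss_odo he0 hg h1 h2 n hn2]
        omega

end

end Pool.Agent.Helper543.Erg
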